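import Pool.Agent.H14.GI.Local

/-!
MP_adb684_al: reduction of subspaces along a homomorphism from the ring of integers to a field.
-/

set_option autoImplicit false

open Matrix NumberField

namespace Pool.Agent.H14.GI

variable {E : Type} [Field E] [NumberField E] {k : Type} [Field k] (φ : 𝓞 E →+* k)

theorem exists_vec {Z : Type} [Finite Z] (a : Z → E) (ha : a ≠ 0) :
    ∃ (c : E) (b : Z → 𝓞 E), c ≠ 0 ∧ (∀ z, algebraMap (𝓞 E) E (b z) = c * a z) ∧
      ∃ z, φ (b z) ≠ 0 := by
  classical
  have := Fintype.ofFinite Z
  obtain ⟨z₀, hz₀⟩ := Function.ne_iff.1 ha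
  obtain ⟨c, h1, ⟨z₁, -, h2⟩⟩ := Ideal.exist_integer_multiples_notMem (A := 𝓞 E) (K := E)
    (RingHom.ker_ne_top φ) (Finset.univ : Finset Z) a (j := z₀) (Finset.mem_univ _) hz₀
  have h3 : ∀ z, ∃ r : 𝓞 E, algebraMap (𝓞 E) E r = c * a z := fun z => h1 z (Finset.mem_univ _)
  choose b hb using h3
  have h4 : b z₁ ∉ RingHom.ker φ := by
    intro h
    apply h2
    rw [FractionalIdeal.mem_coeIdeal]
    exact ⟨b z₁, h, hb z₁⟩
  refine ⟨c, b, ?_, hb, z₁, h4⟩
  rintro rfl
  apply h4
  have : b z₁ = 0 := by
    apply alg_inj
    rw [hb, zero_mul, map_zero]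
  rw [this]
  exact Ideal.zero_mem _

variable {Y : Type}

/-- the vector over `E` -/
def co (s : Y → 𝓞 E) : Y → E := fun y => algebraMap (𝓞 E) E (s y)

/-- the reduction of a subspace -/
def red (S : Submodule E (Y → E)) : Submodule k (Y → k) :=
  Submodule.span k {u | ∃ s : Y → 𝓞 E, co s ∈ S ∧ u = fun y => φ (s y)}

omit [NumberField E] in
theorem red_mono {S S' : Submodule E (Y → E)} (h : S ≤ S') : red φ S ≤ red φ S' := by
  apply Submodule.span_mono
  rintro u ⟨s, hs, rfl⟩
  exact ⟨s, h hs, rfl⟩

omit [NumberField E] in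
theorem mem_red {S : Submodule E (Y → E)} {s : Y → 𝓞 E} (hs : co s ∈ S) :
    (fun y => φ (s y)) ∈ red φ S := Submodule.subset_span ⟨s, hs, rfl⟩

section
variable [Fintype Y]

omit [NumberField E] in
theorem co_mulVec {Z : Type} (A : Matrix Z Y (𝓞 E)) (s : Y → 𝓞 E) :
    co (A *ᵥ s) = A.map (algebraMap (𝓞 E) E) *ᵥ co s := by
  funext z
  simp only [co, Matrix.mulVec, dotProduct, map_sum, map_mul, Matrix.map_apply]

omit [NumberField E] in
theorem red_mulVec {Z : Type} (A : Matrix Z Y (𝓞 E)) (s : Y → 𝓞 E) :
    (A.map φ *ᵥ fun y => φ (s y)) = fun z => φ ((A *ᵥ s) z) := by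
  funext z
  simp only [Matrix.mulVec, dotProduct, map_sum, map_mul, Matrix.map_apply]

omit [NumberField E] in
theorem red_inv {S : Submodule E (Y → E)} (A : Matrix Y Y (𝓞 E))
    (hA : ∀ u ∈ S, A.map (algebraMap (𝓞 E) E) *ᵥ u ∈ S) :
    ∀ u ∈ red φ S, A.map φ *ᵥ u ∈ red φ S := by
  intro u hu
  induction hu using Submodule.span_induction with
  | mem u hu =>
    obtain ⟨s, hs, rfl⟩ := hu
    rw [red_mulVec]
    apply mem_red
    rw [co_mulVec]
    exact hA _ hs
  | zero => rw [Matrix.mulVec_zero]; exact Submodule.zero_mem _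
  | add a b _ _ ha hb => rw [Matrix.mulVec_add]; exact Submodule.add_mem _ ha hb
  | smul c a _ ha => rw [Matrix.mulVec_smul]; exact Submodule.smul_mem _ _ ha

omit [NumberField E] in
theorem red_le_ker {Z : Type} {S : Submodule E (Y → E)} (A : Matrix Z Y (𝓞 E))
    (hA : ∀ u ∈ S, A.map (algebraMap (𝓞 E) E) *ᵥ u = 0) :
    ∀ u ∈ red φ S, A.map φ *ᵥ u = 0 := by
  intro u hu
  induction hu using Submodule.span_induction with
  | mem u hu =>
    obtain ⟨s, hs, rfl⟩ := hu
    rw [red_mulVec]
    have h1 : A *ᵥ s = 0 := by
      funext z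
      apply alg_inj
      have h2 := congrFun (co_mulVec A s) z
      rw [hA _ hs] at h2
      rw [Pi.zero_apply, map_zero]
      exact h2
    funext z
    rw [h1, Pi.zero_apply, map_zero, Pi.zero_apply]
  | zero => rw [Matrix.mulVec_zero]
  | add a b _ _ ha hb => rw [Matrix.mulVec_add, ha, hb, add_zero]
  | smul c a _ ha => rw [Matrix.mulVec_smul, ha, smul_zero]

/-- integral vectors with independent reductions -/
theorem exists_indep (r : ℕ) : ∀ S : Submodule E (Y → E), Module.finrank E S = r →
    ∃ b : Fin r → Y → 𝓞 E, (∀ i, co (b i) ∈ S) ∧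
      LinearIndependent k (fun i => fun y => φ (b i y)) := by
  induction r with
  | zero =>
    intro S _
    exact ⟨fun i => i.elim0, fun i => i.elim0, linearIndependent_empty_type⟩
  | succ r ih =>
    intro S hS
    have hne : S ≠ ⊥ := by
      rintro rfl
      rw [finrank_bot] at hS
      omega
    obtain ⟨v, hvS, hv0⟩ := (Submodule.ne_bot_iff _).1 hne
    obtain ⟨c, v', hc, hv', j, hj⟩ := exists_vec φ v hv0
    have hv'S : co v' ∈ S := by
      have : co v' = c • v := funext hv'
      rw [this]
      exact S.smul_mem c hvS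
    -- the kernel of the coordinate `j`
    let p : S →ₗ[E] E := (LinearMap.proj j).comp S.subtype
    have hp : p ≠ 0 := by
      intro h
      have h1 : p ⟨co v', hv'S⟩ = 0 := by rw [h]; rfl
      have h2 : algebraMap (𝓞 E) E (v' j) = 0 := h1
      have h3 : v' j = 0 := alg_inj (by rw [h2, map_zero])
      rw [h3, map_zero] at hj
      exact hj rfl
    have hrank : Module.finrank E (LinearMap.ker p) = r := by
      have h1 := LinearMap.finrank_range_add_finrank_ker p
      have h2 : LinearMap.range p = ⊤ := by
        have h3 := LinearMap.surjective hp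
        exact LinearMap.range_eq_top.2 h3
      rw [h2, finrank_top, Module.finrank_self, hS] at h1
      omega
    let S₁ : Submodule E (Y → E) := (LinearMap.ker p).map S.subtype
    have hS₁ : Module.finrank E S₁ = r := by
      rw [← hrank]
      exact (LinearEquiv.finrank_eq
        (Submodule.equivMapOfInjective S.subtype S.injective_subtype (LinearMap.ker p))).symm
    obtain ⟨b, hb1, hb2⟩ := ih S₁ hS₁
    have hbj : ∀ i, b i j = 0 := by
      intro i
      obtain ⟨x, hx, hx2⟩ := hb1 i
      have h1 : (x : Y → E) j = 0 := hx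
      apply alg_inj
      rw [map_zero]
      have h2 : (x : Y → E) = co (b i) := hx2
      rw [h2] at h1
      exact h1
    have hbS : ∀ i, co (b i) ∈ S := by
      intro i
      obtain ⟨x, hx, hx2⟩ := hb1 i
      rw [← hx2]
      exact x.2
    refine ⟨Fin.cons v' b, ?_, ?_⟩
    · intro i
      refine Fin.cases ?_ (fun i => ?_) i
      · exact hv'S
      · rw [Fin.cons_succ]
        exact hbS i
    · have h1 : (fun i => fun y => φ ((Fin.cons v' b : Fin (r + 1) → Y → 𝓞 E) i y)) =
          (Fin.cons (fun y => φ (v' y)) (fun i => fun y => φ (b i y)) :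
            Fin (r + 1) → Y → k) := by
        funext i
        refine Fin.cases ?_ (fun i => ?_) i
        · rfl
        · rfl
      rw [h1, linearIndependent_finCons]
      refine ⟨hb2, ?_⟩
      intro hmem
      apply hj
      have h2 : ∀ u ∈ Submodule.span k (Set.range fun i => fun y => φ (b i y)), u j = 0 := by
        intro u hu
        induction hu using Submodule.span_induction with
        | mem u hu =>
          obtain ⟨i, rfl⟩ := hu
          show φ (b i j) = 0
          rw [hbj, map_zero]
        | zero => rfl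
        | add a b _ _ ha hb => rw [Pi.add_apply, ha, hb, add_zero]
        | smul c a _ ha => rw [Pi.smul_apply, ha, smul_zero]
      exact h2 _ hmem

theorem finrank_red (S : Submodule E (Y → E)) :
    Module.finrank k (red φ S) = Module.finrank E S := by
  classical
  apply le_antisymm
  · -- a basis of reductions
    set X : Set (Y → k) := {u | ∃ s : Y → 𝓞 E, co s ∈ S ∧ u = fun y => φ (s y)} with hX
    obtain ⟨B, hBX, hBs, hBi⟩ := exists_linearIndependent k X
    have hBfin : B.Finite := hBi.setFinite
    have := hBfin.fintype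
    have h1 : Module.finrank k (red φ S) = Fintype.card B := by
      have h2 : red φ S = Submodule.span k (Set.range ((↑) : B → (Y → k))) := by
        rw [Subtype.range_coe]
        exact hBs.symm
      rw [h2]
      exact finrank_span_eq_card hBi
    rw [h1]
    by_contra hcon
    push Not at hcon
    choose s hs hsu using fun b : B => hBX b.2
    -- the lifts are dependent
    have hdep : ¬ LinearIndependent E (fun b : B => (⟨co (s b), hs b⟩ : S)) := by
      intro h
      have := h.fintype_card_le_finrank
      omega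
    rw [Fintype.not_linearIndependent_iff] at hdep
    obtain ⟨g, hg, i, hgi⟩ := hdep
    obtain ⟨c, b, hc, hb, z, hz⟩ := exists_vec φ g (fun h => hgi (congrFun h i))
    have hsum : ∑ x, b x • s x = 0 := by
      funext y
      apply alg_inj
      have h2 := congrArg (fun v : S => (v : Y → E) y) hg
      simp only [Submodule.coe_sum, Submodule.coe_smul, Finset.sum_apply, Pi.smul_apply,
        smul_eq_mul, Submodule.coe_zero, Pi.zero_apply] at h2
      simp only [Finset.sum_apply, Pi.smul_apply, smul_eq_mul, map_sum, map_mul, hb,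
        Pi.zero_apply, map_zero]
      have h3 : ∑ x, c * g x * algebraMap (𝓞 E) E (s x y) =
          c * ∑ x, g x * co (s x) y := by
        rw [Finset.mul_sum]
        refine Finset.sum_congr rfl fun x _ => ?_
        rw [mul_assoc]
        rfl
      rw [h3, h2, mul_zero]
    have hred : ∑ x, φ (b x) • (x : Y → k) = 0 := by
      funext y
      have h2 := congrArg φ (congrFun hsum y)
      simp only [Finset.sum_apply, Pi.smul_apply, smul_eq_mul, map_sum, map_mul,
        Pi.zero_apply, map_zero] at h2 ⊢
      rw [← h2]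
      refine Finset.sum_congr rfl fun x _ => ?_
      rw [congrFun (hsu x) y]
    exact hz (Fintype.linearIndependent_iff.1 hBi _ hred z)
  · obtain ⟨b, hb1, hb2⟩ := exists_indep φ _ S rfl
    have h1 : LinearIndependent k
        (fun i => (⟨fun y => φ (b i y), mem_red φ (hb1 i)⟩ : red φ S)) := by
      apply LinearIndependent.of_comp (red φ S).subtype
      exact hb2
    have := h1.fintype_card_le_finrank
    rwa [Fintype.card_fin] at this

end

end Pool.Agent.H14.GI
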