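import Pool.Agent.H14.GI.Big.Small
import Pool.Agent.H14.GI.Big.Red

/-!
MP_adb684_al: the core argument over a number field.
-/

set_option autoImplicit false

open Matrix NumberField

namespace Pool.Agent.H14.GI

/-- the data over a field -/
structure BigData {G : Type} [Group G] (H : Subgroup G) [Fintype (G ⧸ H)] [DecidableEq (G ⧸ H)]
    {K : Type} [Field K] {t n : ℕ} (θ : H →* Matrix (Fin t) (Fin t) K)
    (ρ : G →* Matrix (Fin n) (Fin n) K) (T : Matrix (Fin n) (Fin t) K)
    (T' : Matrix (Fin t) (Fin n) K) (c z : K) (r : ℕ)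
    (P : ℕ → Matrix ((G ⧸ H) × Fin t) ((G ⧸ H) × Fin t) K) : Prop where
  hT : ∀ h : H, ρ h * T = T * θ h
  hT' : ∀ h : H, θ h * T' = T' * ρ h
  T_ne : T ≠ 0
  T'_ne : T' ≠ 0
  c_ne : c ≠ 0
  hc : al H ρ T * be H ρ T' = c • (1 : Matrix (Fin n) (Fin n) K)
  hz : T' * T = z • (1 : Matrix (Fin t) (Fin t) K)
  chain : IsChain (ind H θ) n r P
  last : P r = 1 - c⁻¹ • (be H ρ T' * al H ρ T)

section map0
variable {K L : Type} [CommRing K] [CommRing L] (f : K →+* L) {m l : Type}

theorem smul_one_map [DecidableEq m] (c : K) :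
    ((c • (1 : Matrix m m K)).map f) = f c • (1 : Matrix m m L) := by
  ext i j
  rw [Matrix.map_apply, Matrix.smul_apply, Matrix.smul_apply, smul_eq_mul, smul_eq_mul, map_mul]
  congr 1
  by_cases h : i = j
  · subst h; simp
  · simp [h]

theorem matrix_inj (hf : Function.Injective f) {A B : Matrix m l K} (h : A.map f = B.map f) :
    A = B := by
  ext i j
  exact hf (congrFun (congrFun h i) j)

end map0

/-- over a field of characteristic zero the last idempotent has the expected rank -/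
theorem BigData.rank_last {G : Type} [Group G] {H : Subgroup G} [Fintype (G ⧸ H)]
    [DecidableEq (G ⧸ H)] {K : Type} [Field K] [CharZero K] {t n : ℕ}
    {θ : H →* Matrix (Fin t) (Fin t) K} {ρ : G →* Matrix (Fin n) (Fin n) K}
    {T : Matrix (Fin n) (Fin t) K} {T' : Matrix (Fin t) (Fin n) K} {c z : K} {r : ℕ}
    {P : ℕ → Matrix ((G ⧸ H) × Fin t) ((G ⧸ H) × Fin t) K}
    (h : BigData H θ ρ T T' c z r P) :
    rg (P r) + n = Fintype.card (G ⧸ H) * t := by
  have h1 : ((rg (P r) : ℕ) : K) = ((Fintype.card (G ⧸ H) * t : ℕ) : K) - (n : K) := by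
    rw [← trace_idem (h.chain.2.1 r le_rfl).idem, h.last, Matrix.trace_sub, Matrix.trace_smul,
      Matrix.trace_mul_comm, h.hc, Matrix.trace_smul, Matrix.trace_one, Matrix.trace_one,
      smul_smul, inv_mul_cancel₀ h.c_ne, one_smul, Fintype.card_prod, Fintype.card_fin,
      Fintype.card_fin]
  have h2 : ((rg (P r) + n : ℕ) : K) = ((Fintype.card (G ⧸ H) * t : ℕ) : K) := by
    rw [Nat.cast_add, h1, sub_add_cancel]
  exact_mod_cast h2

section core
variable {G : Type} [Group G] (H : Subgroup G) [Fintype (G ⧸ H)] [DecidableEq (G ⧸ H)]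
  {E : Type} [Field E] [NumberField E] {t n : ℕ}

theorem core (hn : 1 ≤ n) (θ : H →* Matrix (Fin t) (Fin t) (𝓞 E))
    (ρ : G →* Matrix (Fin n) (Fin n) (𝓞 E)) {T₀ : Matrix (Fin n) (Fin t) E}
    {T₀' : Matrix (Fin t) (Fin n) E} {c z : E} {r : ℕ}
    {P : ℕ → Matrix ((G ⧸ H) × Fin t) ((G ⧸ H) × Fin t) E}
    (h : BigData H (mapRep (algebraMap (𝓞 E) E) θ) (mapRep (algebraMap (𝓞 E) E) ρ) T₀ T₀' c z r P)
    {k : Type} [Field k] (φ : 𝓞 E →+* k) (hI : IrredVia φ ρ) :
    ∃ c' z' : 𝓞 E, ((Fintype.card (G ⧸ H) * t : ℕ) : 𝓞 E) * z' = (n : 𝓞 E) * c' ∧ φ c' ≠ 0 := by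
  classical
  have hI' : Irr (mapRep φ ρ) := hI
  set θE := mapRep (algebraMap (𝓞 E) E) θ with hθE
  set ρE := mapRep (algebraMap (𝓞 E) E) ρ with hρE
  have hainj : Function.Injective (algebraMap (𝓞 E) E) := fun a b => alg_inj
  -- scaling
  obtain ⟨a, Tv, ha, hTv, ⟨i₀, j₀⟩, hi₀⟩ := exists_vec φ (fun p : Fin n × Fin t => T₀ p.1 p.2)
    (fun h0 => h.T_ne (by
      ext i j
      exact congrFun h0 (i, j)))
  obtain ⟨b, Tv', hb, hTv', ⟨i₁, j₁⟩, hi₁⟩ := exists_vec φ
    (fun p : Fin t × Fin n => T₀' p.1 p.2)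
    (fun h0 => h.T'_ne (by
      ext i j
      exact congrFun h0 (i, j)))
  let T : Matrix (Fin n) (Fin t) (𝓞 E) := fun i j => Tv (i, j)
  let T' : Matrix (Fin t) (Fin n) (𝓞 E) := fun i j => Tv' (i, j)
  have hTE : T.map (algebraMap (𝓞 E) E) = a • T₀ := by
    ext i j
    exact hTv (i, j)
  have hTE' : T'.map (algebraMap (𝓞 E) E) = b • T₀' := by
    ext i j
    exact hTv' (i, j)
  have hTint : ∀ h : H, ρ h * T = T * θ h := by
    intro x
    apply matrix_inj _ hainj
    rw [Matrix.map_mul, Matrix.map_mul, hTE]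
    have := h.hT x
    show ρE x * (a • T₀) = (a • T₀) * θE x
    rw [Matrix.mul_smul, Matrix.smul_mul, this]
  have hTint' : ∀ h : H, θ h * T' = T' * ρ h := by
    intro x
    apply matrix_inj _ hainj
    rw [Matrix.map_mul, Matrix.map_mul, hTE']
    have := h.hT' x
    show θE x * (b • T₀') = (b • T₀') * ρE x
    rw [Matrix.mul_smul, Matrix.smul_mul, this]
  set α := al H ρ T with hα
  set β := be H ρ T' with hβ
  have hαE : α.map (algebraMap (𝓞 E) E) = a • al H ρE T₀ := by
    rw [hα, map_al, hTE]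
    ext i p
    show (ρE p.1.out * (a • T₀)) i p.2 = a • (ρE p.1.out * T₀) i p.2
    rw [Matrix.mul_smul]
    rfl
  have hβE : β.map (algebraMap (𝓞 E) E) = b • be H ρE T₀' := by
    rw [hβ, map_be, hTE']
    ext p i
    show ((b • T₀') * ρE p.1.out⁻¹) p.2 i = b • (T₀' * ρE p.1.out⁻¹) p.2 i
    rw [Matrix.smul_mul]
    rfl
  -- the scalars
  have hn0 : 0 < n := hn
  have ht0 : 0 < t := Fin.pos j₀
  set c' := (α * β) ⟨0, hn0⟩ ⟨0, hn0⟩ with hc'
  set z' := (T' * T) ⟨0, ht0⟩ ⟨0, ht0⟩ with hz'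
  have hαβE : (α * β).map (algebraMap (𝓞 E) E) = (a * b * c) • (1 : Matrix (Fin n) (Fin n) E) := by
    rw [Matrix.map_mul, hαE, hβE, Matrix.smul_mul, Matrix.mul_smul, h.hc, smul_smul, smul_smul,
      mul_assoc]
  have hc'E : algebraMap (𝓞 E) E c' = a * b * c := by
    have := congrFun (congrFun hαβE ⟨0, hn0⟩) ⟨0, hn0⟩
    rw [Matrix.smul_apply, Matrix.one_apply_eq, smul_eq_mul, mul_one] at this
    exact this
  have hαβ : α * β = c' • (1 : Matrix (Fin n) (Fin n) (𝓞 E)) := by
    apply matrix_inj _ hainj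
    rw [hαβE, smul_one_map, hc'E]
  have hTTE : (T' * T).map (algebraMap (𝓞 E) E) = (a * b * z) • (1 : Matrix (Fin t) (Fin t) E) := by
    rw [Matrix.map_mul, hTE, hTE', Matrix.smul_mul, Matrix.mul_smul, h.hz, smul_smul, smul_smul]
    congr 1
    ring
  have hz'E : algebraMap (𝓞 E) E z' = a * b * z := by
    have := congrFun (congrFun hTTE ⟨0, ht0⟩) ⟨0, ht0⟩
    rw [Matrix.smul_apply, Matrix.one_apply_eq, smul_eq_mul, mul_one] at this
    exact this
  have hTT : T' * T = z' • (1 : Matrix (Fin t) (Fin t) (𝓞 E)) := by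
    apply matrix_inj _ hainj
    rw [hTTE, smul_one_map, hz'E]
  refine ⟨c', z', ?_, ?_⟩
  · have h1 := trace_al_be H ρ T T'
    rw [← hα, ← hβ, hαβ, hTT, Matrix.trace_smul, Matrix.trace_smul, Matrix.trace_one,
      Matrix.trace_one, Fintype.card_fin, Fintype.card_fin, smul_eq_mul, smul_eq_mul] at h1
    push_cast
    linear_combination -h1
  intro hφc
  -- the reduced maps
  set αφ := α.map φ with hαφ
  set βφ := β.map φ with hβφ
  set ρφ := mapRep φ ρ with hρφ
  set Qφ : G → Matrix ((G ⧸ H) × Fin t) ((G ⧸ H) × Fin t) k := fun g => (ind H θ g).map φ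
    with hQφ
  have hα1 : ∀ g, αφ * Qφ g = ρφ g * αφ := by
    intro g
    have h1 := congrArg (fun M => M.map φ) (al_ind H θ ρ hTint g)
    simp only [Matrix.map_mul] at h1
    exact h1
  have hβ1 : ∀ g, Qφ g * βφ = βφ * ρφ g := by
    intro g
    have h1 := congrArg (fun M => M.map φ) (ind_be H θ ρ hTint' g)
    simp only [Matrix.map_mul] at h1
    exact h1
  have hαβφ : αφ * βφ = 0 := by
    have h1 := congrArg (fun M => M.map φ) hαβ
    simp only [Matrix.map_mul] at h1
    rw [smul_one_map, hφc, zero_smul] at h1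
    exact h1
  have hran : LinearMap.range αφ.mulVecLin = ⊤ := by
    rcases hI' (LinearMap.range αφ.mulVecLin) (by
      rintro g _ ⟨u, rfl⟩
      refine ⟨Qφ g *ᵥ u, ?_⟩
      rw [Matrix.mulVecLin_apply, Matrix.mulVecLin_apply, Matrix.mulVec_mulVec,
        Matrix.mulVec_mulVec, hα1]) with h1 | h1
    · exfalso
      have h2 : αφ = 0 := by
        apply mulVec_ext
        intro u
        have h3 : αφ.mulVecLin u ∈ LinearMap.range αφ.mulVecLin := ⟨u, rfl⟩
        rw [h1, Submodule.mem_bot] at h3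
        rw [Matrix.zero_mulVec]
        exact h3
      have h4 := congrArg (fun M => M.map φ) (al_emb H θ ρ hTint 1)
      simp only [Matrix.map_mul, map_one, Matrix.one_mul] at h4
      have h5 : αφ * (emb H θ 1).map φ = T.map φ := h4
      rw [h2, Matrix.zero_mul] at h5
      have h6 : φ (T i₀ j₀) = 0 := (congrFun (congrFun h5 i₀) j₀).symm
      exact hi₀ h6
    · exact h1
  have hβ0 : βφ ≠ 0 := by
    intro h1
    have h2 : (T' * ρ (((1 : G) : G ⧸ H)).out⁻¹).map φ = 0 := by
      ext i j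
      exact congrFun (congrFun h1 (((1 : G) : G ⧸ H), i)) j
    have h3 : T'.map φ = 0 := by
      have h4 : T'.map φ = (T' * ρ (((1 : G) : G ⧸ H)).out⁻¹).map φ *
          (ρ (((1 : G) : G ⧸ H)).out).map φ := by
        rw [← Matrix.map_mul, Matrix.mul_assoc, ← map_mul, inv_mul_cancel, map_one, Matrix.mul_one]
      rw [h4, h2, Matrix.zero_mul]
    exact hi₁ (congrFun (congrFun h3 i₁) j₁)
  have hker : LinearMap.ker βφ.mulVecLin = ⊥ := by
    rcases hI' (LinearMap.ker βφ.mulVecLin) (by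
      intro g u hu
      rw [LinearMap.mem_ker, Matrix.mulVecLin_apply] at hu ⊢
      rw [Matrix.mulVec_mulVec]
      have h1 : βφ * ρφ g = Qφ g * βφ := (hβ1 g).symm
      show (βφ * ρφ g) *ᵥ u = 0
      rw [h1, ← Matrix.mulVec_mulVec, hu, Matrix.mulVec_zero]) with h1 | h1
    · exact h1
    · exfalso
      apply hβ0
      apply mulVec_ext
      intro u
      have h2 : u ∈ LinearMap.ker βφ.mulVecLin := by rw [h1]; trivial
      rw [Matrix.zero_mulVec]
      exact h2
  -- the filtration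
  let S : ℕ → Submodule E (((G ⧸ H) × Fin t) → E) := fun i => LinearMap.range (P i).mulVecLin
  let R : ℕ → Submodule k (((G ⧸ H) × Fin t) → k) := fun i => red φ (S i)
  have hR : ∀ i, Module.finrank k (R i) = rg (P i) := fun i => finrank_red φ (S i)
  have hfk : Module.finrank k (LinearMap.ker αφ.mulVecLin) + n = Fintype.card (G ⧸ H) * t := by
    have h1 := LinearMap.finrank_range_add_finrank_ker αφ.mulVecLin
    rw [hran, finrank_top, Module.finrank_fin_fun, Module.finrank_fintype_fun_eq_card,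
      Fintype.card_prod, Fintype.card_fin] at h1
    omega
  have hRr : R r = LinearMap.ker αφ.mulVecLin := by
    apply Submodule.eq_of_le_of_finrank_eq
    · have h1 := red_le_ker φ (S := S r) α (by
        rintro _ ⟨u, rfl⟩
        rw [Matrix.mulVecLin_apply, Matrix.mulVec_mulVec, hαE, Matrix.smul_mul, h.last,
          Matrix.mul_sub, Matrix.mul_one, Matrix.mul_smul, ← Matrix.mul_assoc, h.hc,
          Matrix.smul_mul, Matrix.one_mul, smul_smul, inv_mul_cancel₀ h.c_ne, one_smul, sub_self,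
          smul_zero, Matrix.zero_mulVec])
      intro u hu
      rw [LinearMap.mem_ker]
      exact h1 u hu
    · have h1 := h.rank_last
      have h2 := hR r
      omega
  have hUr : LinearMap.range βφ.mulVecLin ≤ R r := by
    rw [hRr]
    rintro _ ⟨u, rfl⟩
    rw [LinearMap.mem_ker, Matrix.mulVecLin_apply, Matrix.mulVecLin_apply, Matrix.mulVec_mulVec,
      hαβφ, Matrix.zero_mulVec]
  have hU : Module.finrank k (LinearMap.range βφ.mulVecLin) = n := by
    have h1 := LinearMap.finrank_range_add_finrank_ker βφ.mulVecLin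
    rw [hker, finrank_bot, add_zero, Module.finrank_fin_fun] at h1
    exact h1
  have hstep : ∀ i, i < r → LinearMap.range βφ.mulVecLin ≤ R (i + 1) →
      LinearMap.range βφ.mulVecLin ≤ R i := by
    intro i hi hle
    obtain ⟨hPP, hrk⟩ := h.chain.2.2 i hi
    have hSS : S i ≤ S (i + 1) := by
      rintro _ ⟨u, rfl⟩
      refine ⟨P i *ᵥ u, ?_⟩
      rw [Matrix.mulVecLin_apply, Matrix.mulVecLin_apply, Matrix.mulVec_mulVec, hPP]
    have hRR : R i ≤ R (i + 1) := red_mono φ hSS
    have hinv : ∀ g, ∀ u ∈ R i, Qφ g *ᵥ u ∈ R i := by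
      intro g
      apply red_inv φ (ind H θ g)
      rintro _ ⟨u, rfl⟩
      refine ⟨ind H θE g *ᵥ u, ?_⟩
      rw [Matrix.mulVecLin_apply, Matrix.mulVecLin_apply, Matrix.mulVec_mulVec,
        Matrix.mulVec_mulVec, map_ind]
      rw [← (h.chain.2.1 i hi.le).comm g]
    rcases hI' ((R i).comap βφ.mulVecLin) (by
      intro g u hu
      rw [Submodule.mem_comap, Matrix.mulVecLin_apply] at hu ⊢
      rw [Matrix.mulVec_mulVec]
      have h1 : βφ * ρφ g = Qφ g * βφ := (hβ1 g).symm
      show (βφ * ρφ g) *ᵥ u ∈ R i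
      rw [h1, ← Matrix.mulVec_mulVec]
      exact hinv g _ hu) with h1 | h1
    · exfalso
      have h2 : LinearMap.range βφ.mulVecLin ⊓ R i = ⊥ := by
        rw [eq_bot_iff]
        rintro _ ⟨⟨u, rfl⟩, hu⟩
        have h3 : u ∈ (R i).comap βφ.mulVecLin := hu
        rw [h1, Submodule.mem_bot] at h3
        rw [h3, map_zero]
        exact Submodule.zero_mem _
      have h3 := Submodule.finrank_sup_add_finrank_inf_eq (LinearMap.range βφ.mulVecLin) (R i)
      rw [h2, finrank_bot, add_zero, hU, hR] at h3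
      have h4 : Module.finrank k ↥(LinearMap.range βφ.mulVecLin ⊔ R i) ≤
          Module.finrank k (R (i + 1)) := Submodule.finrank_mono (sup_le hle hRR)
      rw [h3, hR] at h4
      omega
    · rintro _ ⟨u, rfl⟩
      have h2 : u ∈ (R i).comap βφ.mulVecLin := by rw [h1]; trivial
      exact h2
  have hall : ∀ m, m ≤ r → LinearMap.range βφ.mulVecLin ≤ R (r - m) := by
    intro m
    induction m with
    | zero => intro _; exact hUr
    | succ m ih =>
      intro hm
      have h1 := ih (by omega)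
      have h2 : r - m = (r - (m + 1)) + 1 := by omega
      rw [h2] at h1
      exact hstep _ (by omega) h1
  have h0 := hall r le_rfl
  rw [Nat.sub_self] at h0
  have h1 := Submodule.finrank_mono h0
  rw [hU, hR, h.chain.1] at h1
  have h2 : rg (0 : Matrix ((G ⧸ H) × Fin t) ((G ⧸ H) × Fin t) E) = 0 := by
    have h3 := trace_idem (π := (0 : Matrix ((G ⧸ H) × Fin t) ((G ⧸ H) × Fin t) E)) (by simp)
    rw [Matrix.trace_zero] at h3
    exact_mod_cast h3.symm
  omega

end core

/-- divisibility from the local information -/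
theorem dvd_of_local {E : Type} [Field E] [NumberField E] (N n : ℕ)
    (h : ∀ q : ℕ, q.Prime → q ∣ N → ∃ (k : Type) (_ : Field k) (_ : CharP k q) (φ : 𝓞 E →+* k)
      (c' z' : 𝓞 E), (N : 𝓞 E) * z' = (n : 𝓞 E) * c' ∧ φ c' ≠ 0) : N ∣ n := by
  rcases Nat.eq_zero_or_pos n with rfl | hn
  · exact dvd_zero _
  rw [Nat.dvd_iff_prime_pow_dvd_dvd]
  intro p e hp hpe
  by_contra hcon
  have he : e ≠ 0 := by
    rintro rfl
    exact hcon (by simp)
  obtain ⟨k, _, _, φ, c', z', h1, h2⟩ := h p hp ((dvd_pow_self p he).trans hpe)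
  obtain ⟨b, n₁, hn₁, hbn⟩ := Nat.exists_eq_pow_mul_and_not_dvd hn.ne' p hp.ne_one
  have hbe : b < e := by
    by_contra hbe
    push Not at hbe
    apply hcon
    rw [hbn]
    exact (pow_dvd_pow p hbe).mul_right _
  obtain ⟨M, hM⟩ := hpe
  have h3 : ((p ^ (e - b) * M : ℕ) : 𝓞 E) * z' = (n₁ : 𝓞 E) * c' := by
    have hpb : ((p ^ b : ℕ) : 𝓞 E) ≠ 0 := by
      have : p ^ b ≠ 0 := pow_ne_zero _ hp.ne_zero
      exact_mod_cast this
    apply mul_left_cancel₀ hpb
    have h4 : N = p ^ b * (p ^ (e - b) * M) := by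
      rw [hM, ← mul_assoc, ← pow_add]
      congr 2
      omega
    rw [← mul_assoc, ← Nat.cast_mul, ← h4, h1, hbn]
    push_cast
    ring
  have h4 := congrArg φ h3
  rw [map_mul, map_mul, map_natCast, map_natCast] at h4
  have h5 : ((p ^ (e - b) * M : ℕ) : k) = 0 := by
    rw [CharP.cast_eq_zero_iff k p]
    exact (dvd_pow_self p (by omega)).mul_right _
  rw [h5, zero_mul] at h4
  have h6 : (n₁ : k) = 0 := (mul_eq_zero.1 h4.symm).resolve_right h2
  exact hn₁ ((CharP.cast_eq_zero_iff k p n₁).1 h6)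

end Pool.Agent.H14.GI
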