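import Pool.Agent.H14.GI.Big.Core
import Pool.Agent.H14.GI.Descent

/-!
MP_adb684_al: the data over the complex numbers, and the descent to a number field.
-/

set_option autoImplicit false

open Matrix NumberField

namespace Pool.Agent.H14.GI

/-- Schur's lemma -/
theorem schur' {G : Type} [Group G] {n : ℕ} {P : G →* Matrix (Fin n) (Fin n) ℂ} (hP : Irr P)
    (hn : 1 ≤ n) (B : Matrix (Fin n) (Fin n) ℂ) (hB : ∀ g, P g * B = B * P g) :
    ∃ c : ℂ, B = c • (1 : Matrix (Fin n) (Fin n) ℂ) := by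
  have hne : Nonempty (Fin n) := ⟨⟨0, by omega⟩⟩
  have : Nontrivial (Fin n → ℂ) := Function.nontrivial
  obtain ⟨c, hc⟩ := Module.End.exists_eigenvalue (Matrix.toLin' B)
  refine ⟨c, ?_⟩
  have h := hP (Module.End.eigenspace (Matrix.toLin' B) c) (by
    intro g u hu
    rw [Module.End.mem_eigenspace_iff, Matrix.toLin'_apply] at hu ⊢
    rw [Matrix.mulVec_mulVec, ← hB, ← Matrix.mulVec_mulVec, hu, Matrix.mulVec_smul])
  rcases h with h | h
  · exact absurd h hc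
  · apply Matrix.toLin'.injective
    apply LinearMap.ext
    intro u
    have hu : u ∈ Module.End.eigenspace (Matrix.toLin' B) c := by rw [h]; trivial
    rw [Module.End.mem_eigenspace_iff] at hu
    rw [hu, Matrix.toLin'_apply, Matrix.smul_mulVec, Matrix.one_mulVec]

section cx
variable {G : Type} [Group G] [Finite G] (H : Subgroup G) [Fintype (G ⧸ H)]
  [DecidableEq (G ⧸ H)] {t n : ℕ}

theorem exists_data (hn : 1 ≤ n) (θ : H →* Matrix (Fin t) (Fin t) ℂ) (hθ : Irr θ)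
    (ρ : G →* Matrix (Fin n) (Fin n) ℂ) (hρ : Irr ρ) (T₀ : Matrix (Fin n) (Fin t) ℂ)
    (hT0 : T₀ ≠ 0) (hT₀ : ∀ h : H, ρ h * T₀ = T₀ * θ h)
    (hmult : ∀ T : Matrix (Fin n) (Fin t) ℂ, (∀ h : H, ρ h * T = T * θ h) → ∃ c : ℂ, T = c • T₀)
    (hmax : ∀ (d : ℕ) (τ : G →* Matrix (Fin d) (Fin d) ℂ), n ≤ d → Irr τ →
      (∃ T : Matrix (Fin d) (Fin t) ℂ, T ≠ 0 ∧ ∀ h : H, τ h * T = T * θ h) →
      ∃ S : Matrix (Fin d) (Fin n) ℂ, S ≠ 0 ∧ ∀ g, τ g * S = S * ρ g) :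
    ∃ (T₀' : Matrix (Fin t) (Fin n) ℂ) (c z : ℂ) (r : ℕ)
      (P : ℕ → Matrix ((G ⧸ H) × Fin t) ((G ⧸ H) × Fin t) ℂ),
      BigData H θ ρ T₀ T₀' c z r P := by
  classical
  have := Fintype.ofFinite G
  have := Fintype.ofFinite H
  obtain ⟨a, j, haj⟩ : ∃ a j, T₀ a j ≠ 0 := by
    by_contra hcon
    push Not at hcon
    exact hT0 (by ext a j; exact hcon a j)
  have ht : 1 ≤ t := Fin.pos j
  let C : Matrix (Fin t) (Fin n) ℂ := Matrix.single j a 1
  let T' : Matrix (Fin t) (Fin n) ℂ := ∑ h : H, θ h * C * ρ (h⁻¹ : H)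
  have hT' : ∀ h : H, θ h * T' = T' * ρ h := by
    intro h
    show θ h * (∑ h : H, θ h * C * ρ (h⁻¹ : H)) = (∑ h : H, θ h * C * ρ (h⁻¹ : H)) * ρ h
    rw [Matrix.mul_sum, Matrix.sum_mul,
      ← Equiv.sum_comp (Equiv.mulLeft h) (fun x : H => θ x * C * ρ (x⁻¹ : H) * ρ h)]
    refine Finset.sum_congr rfl fun x _ => ?_
    show θ h * (θ x * C * ρ (x⁻¹ : H)) = θ (h * x) * C * ρ ((h * x)⁻¹ : H) * ρ h
    have e1 : ρ ((h * x)⁻¹ : H) * ρ h = ρ (x⁻¹ : H) := by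
      rw [← map_mul]
      congr 1
      simp
    rw [Matrix.mul_assoc _ (ρ ((h * x)⁻¹ : H)) (ρ h), e1, map_mul]
    simp only [Matrix.mul_assoc]
  -- the scalar `z`
  obtain ⟨z, hz⟩ := schur' hθ ht (T' * T₀) (by
    intro h
    rw [← Matrix.mul_assoc, hT', Matrix.mul_assoc, hT₀, ← Matrix.mul_assoc])
  have htr : Matrix.trace (T' * T₀) = (Fintype.card H : ℂ) * T₀ a j := by
    show Matrix.trace ((∑ h : H, θ h * C * ρ (h⁻¹ : H)) * T₀) = _
    rw [Matrix.sum_mul, Matrix.trace_sum]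
    have h1 : ∀ h : H, Matrix.trace (θ h * C * ρ (h⁻¹ : H) * T₀) = T₀ a j := by
      intro h
      rw [Matrix.mul_assoc, hT₀, Matrix.trace_mul_comm]
      have h2 : T₀ * θ h⁻¹ * (θ h * C) = T₀ * C := by
        rw [Matrix.mul_assoc, ← Matrix.mul_assoc (θ h⁻¹), ← map_mul, inv_mul_cancel, map_one,
          Matrix.one_mul]
      rw [h2, Matrix.trace_mul_comm]
      simp [C, Matrix.trace_single_mul]
    rw [Finset.sum_congr rfl (fun h _ => h1 h), Finset.sum_const, Finset.card_univ, nsmul_eq_mul]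
  have hz0 : (t : ℂ) * z ≠ 0 := by
    have h1 : Matrix.trace (T' * T₀) = (t : ℂ) * z := by
      rw [hz, Matrix.trace_smul, Matrix.trace_one, Fintype.card_fin, smul_eq_mul, mul_comm]
    rw [← h1, htr]
    exact mul_ne_zero (by exact_mod_cast Fintype.card_ne_zero) haj
  have hT'0 : T' ≠ 0 := by
    intro h
    rw [h, Matrix.zero_mul, Matrix.trace_zero] at htr
    have h1 : (Fintype.card H : ℂ) * T₀ a j ≠ 0 :=
      mul_ne_zero (by exact_mod_cast Fintype.card_ne_zero) haj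
    exact h1 htr.symm
  -- the scalar `c`
  obtain ⟨c, hc⟩ := schur' hρ hn (al H ρ T₀ * be H ρ T') (by
    intro g
    rw [← Matrix.mul_assoc, ← al_ind H θ ρ hT₀, Matrix.mul_assoc, ind_be H θ ρ hT',
      ← Matrix.mul_assoc])
  have hc0 : c ≠ 0 := by
    rintro rfl
    have h1 := trace_al_be H ρ T₀ T'
    rw [hc, zero_smul, Matrix.trace_zero, hz, Matrix.trace_smul, Matrix.trace_one,
      Fintype.card_fin, smul_eq_mul] at h1
    have h2 : (Fintype.card (G ⧸ H) : ℂ) ≠ 0 := by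
      have : Nonempty (G ⧸ H) := ⟨((1 : G) : G ⧸ H)⟩
      exact_mod_cast Fintype.card_ne_zero
    rw [mul_comm z] at h1
    exact mul_ne_zero h2 hz0 h1.symm
  -- the chain
  set α := al H ρ T₀ with hα
  set β := be H ρ T' with hβ
  let π : Matrix ((G ⧸ H) × Fin t) ((G ⧸ H) × Fin t) ℂ := 1 - c⁻¹ • (β * α)
  have hbb : (c⁻¹ • (β * α)) * (c⁻¹ • (β * α)) = c⁻¹ • (β * α) := by
    have h1 : β * α * (β * α) = c • (β * α) := by
      calc β * α * (β * α) = β * (α * β) * α := by simp only [Matrix.mul_assoc]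
        _ = c • (β * α) := by
          rw [hc, Matrix.mul_smul, Matrix.mul_one, Matrix.smul_mul]
    rw [Matrix.smul_mul, Matrix.mul_smul, h1, smul_smul, smul_smul]
    congr 1
    field_simp
  have hEI : EI (indHom H θ) π := by
    refine ⟨?_, fun g => ?_⟩
    · show (1 - c⁻¹ • (β * α)) * (1 - c⁻¹ • (β * α)) = 1 - c⁻¹ • (β * α)
      rw [Matrix.sub_mul, Matrix.one_mul, Matrix.mul_sub, Matrix.mul_one, hbb, sub_self, sub_zero]
    · show ind H θ g * (1 - c⁻¹ • (β * α)) = (1 - c⁻¹ • (β * α)) * ind H θ g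
      rw [Matrix.mul_sub, Matrix.sub_mul, Matrix.mul_one, Matrix.one_mul, Matrix.mul_smul,
        Matrix.smul_mul, ← Matrix.mul_assoc, ind_be H θ ρ hT', Matrix.mul_assoc, Matrix.mul_assoc,
        al_ind H θ ρ hT₀]
  obtain ⟨r, P, hP, hPr⟩ := exists_chain (indHom H θ) n α
    (fun π' h1 h2 h3 h4 => small_of_max H hn θ ρ hρ T₀ hT₀ hmult hmax π' h1 h2 h3 h4)
    (rg π) π le_rfl hEI (by
      show α * (1 - c⁻¹ • (β * α)) = 0
      rw [Matrix.mul_sub, Matrix.mul_one, Matrix.mul_smul, ← Matrix.mul_assoc, hc,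
        Matrix.smul_mul, Matrix.one_mul, smul_smul, inv_mul_cancel₀ hc0, one_smul, sub_self])
  exact ⟨T', c, z, r, P, ⟨hT₀, hT', hT0, hT'0, hc0, hc, hz, hP, hPr⟩⟩

end cx

end Pool.Agent.H14.GI
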