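import Pool.Agent.H14.GI.Big.Cx

/-!
MP_adb684_al: the descent of the data to a number field, and the main theorem on the largest
constituent.
-/

set_option autoImplicit false

open Matrix NumberField

namespace Pool.Agent.H14.GI

/-- the data over a commutative ring -/
structure BigRing {G : Type} [Group G] (H : Subgroup G) [Fintype (G ⧸ H)] [DecidableEq (G ⧸ H)]
    {K : Type} [CommRing K] {t n : ℕ} (θ : H →* Matrix (Fin t) (Fin t) K)
    (ρ : G →* Matrix (Fin n) (Fin n) K) (T : Matrix (Fin n) (Fin t) K)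
    (T' : Matrix (Fin t) (Fin n) K) (c ci z u : K) (i₀ i₁ : Fin n) (j₀ j₁ : Fin t) (r : ℕ)
    (d : ℕ → ℕ) (P : ℕ → Matrix ((G ⧸ H) × Fin t) ((G ⧸ H) × Fin t) K) : Prop where
  hT : ∀ h : H, ρ h * T = T * θ h
  hT' : ∀ h : H, θ h * T' = T' * ρ h
  hu : u * (T i₀ j₀ * T' j₁ i₁) = 1
  hci : c * ci = 1
  hc : al H ρ T * be H ρ T' = c • (1 : Matrix (Fin n) (Fin n) K)
  hz : T' * T = z • (1 : Matrix (Fin t) (Fin t) K)
  P0 : P 0 = 0
  idem : ∀ i ≤ r, P i * P i = P i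
  comm : ∀ i ≤ r, ∀ g, ind H θ g * P i = P i * ind H θ g
  step : ∀ i < r, P (i + 1) * P i = P i
  tr : ∀ i ≤ r, Matrix.trace (P i) = (d i : K)
  last : P r = 1 - ci • (be H ρ T' * al H ρ T)

section
variable {G : Type} [Group G] {H : Subgroup G} [Fintype (G ⧸ H)] [DecidableEq (G ⧸ H)]

theorem smul_map0 {K L m l : Type} [CommRing K] [CommRing L] (f : K →+* L) (c : K)
    (M : Matrix m l K) : (c • M).map f = f c • M.map f := by
  ext i j
  simp only [Matrix.map_apply, Matrix.smul_apply, smul_eq_mul, map_mul]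

theorem one_map0 {K L m : Type} [CommRing K] [CommRing L] [DecidableEq m] (f : K →+* L) :
    (1 : Matrix m m K).map f = 1 := by
  ext i j
  by_cases h : i = j
  · subst h; simp
  · simp [h]

theorem sub_map0 {K L m l : Type} [CommRing K] [CommRing L] (f : K →+* L)
    (M N : Matrix m l K) : (M - N).map f = M.map f - N.map f := by
  ext i j
  simp only [Matrix.map_apply, Matrix.sub_apply, map_sub]

theorem zero_map0 {K L m l : Type} [CommRing K] [CommRing L] (f : K →+* L) :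
    (0 : Matrix m l K).map f = 0 := by
  ext i j
  simp only [Matrix.map_apply, Matrix.zero_apply, map_zero]

theorem trace_map0 {K L m : Type} [CommRing K] [CommRing L] [Fintype m] (f : K →+* L)
    (M : Matrix m m K) : Matrix.trace (M.map f) = f (Matrix.trace M) := by
  simp only [Matrix.trace, Matrix.diag_apply, Matrix.map_apply, map_sum]

theorem BigRing.map {K L : Type} [CommRing K] [CommRing L] (f : K →+* L) {t n : ℕ}
    {θ : H →* Matrix (Fin t) (Fin t) K}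
    {ρ : G →* Matrix (Fin n) (Fin n) K} {T : Matrix (Fin n) (Fin t) K}
    {T' : Matrix (Fin t) (Fin n) K} {c ci z u : K} {i₀ i₁ : Fin n} {j₀ j₁ : Fin t} {r : ℕ}
    {d : ℕ → ℕ} {P : ℕ → Matrix ((G ⧸ H) × Fin t) ((G ⧸ H) × Fin t) K}
    (h : BigRing H θ ρ T T' c ci z u i₀ i₁ j₀ j₁ r d P) :
    BigRing H (mapRep f θ) (mapRep f ρ) (T.map f) (T'.map f) (f c) (f ci) (f z) (f u) i₀ i₁ j₀ j₁
      r d (fun i => (P i).map f) := by
  refine ⟨?_, ?_, ?_, ?_, ?_, ?_, ?_, ?_, ?_, ?_, ?_, ?_⟩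
  · intro x
    have h1 := congrArg (fun M => M.map f) (h.hT x)
    simp only [Matrix.map_mul] at h1
    exact h1
  · intro x
    have h1 := congrArg (fun M => M.map f) (h.hT' x)
    simp only [Matrix.map_mul] at h1
    exact h1
  · rw [Matrix.map_apply, Matrix.map_apply, ← map_mul, ← map_mul, h.hu, map_one]
  · rw [← map_mul, h.hci, map_one]
  · rw [← map_al, ← map_be, ← Matrix.map_mul, h.hc, smul_map0, one_map0]
  · rw [← Matrix.map_mul, h.hz, smul_map0, one_map0]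
  · show (P 0).map f = 0
    rw [h.P0, zero_map0]
  · intro i hi
    show (P i).map f * (P i).map f = (P i).map f
    rw [← Matrix.map_mul, h.idem i hi]
  · intro i hi g
    show _ * (P i).map f = (P i).map f * _
    rw [← map_ind, ← Matrix.map_mul, ← Matrix.map_mul, h.comm i hi]
  · intro i hi
    show (P (i + 1)).map f * (P i).map f = (P i).map f
    rw [← Matrix.map_mul, h.step i hi]
  · intro i hi
    show Matrix.trace ((P i).map f) = _
    rw [trace_map0, h.tr i hi, map_natCast]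
  · show (P r).map f = _
    rw [h.last, sub_map0, one_map0, smul_map0, Matrix.map_mul, map_al, map_be]

theorem BigRing.comap {K L : Type} [CommRing K] [CommRing L] (f : K →+* L)
    (hf : Function.Injective f) {t n : ℕ} {θ : H →* Matrix (Fin t) (Fin t) K}
    {ρ : G →* Matrix (Fin n) (Fin n) K} {T : Matrix (Fin n) (Fin t) K}
    {T' : Matrix (Fin t) (Fin n) K} {c ci z u : K} {i₀ i₁ : Fin n} {j₀ j₁ : Fin t} {r : ℕ}
    {d : ℕ → ℕ} {P : ℕ → Matrix ((G ⧸ H) × Fin t) ((G ⧸ H) × Fin t) K}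
    (h : BigRing H (mapRep f θ) (mapRep f ρ) (T.map f) (T'.map f) (f c) (f ci) (f z) (f u)
      i₀ i₁ j₀ j₁ r d (fun i => (P i).map f)) :
    BigRing H θ ρ T T' c ci z u i₀ i₁ j₀ j₁ r d P := by
  refine ⟨?_, ?_, ?_, ?_, ?_, ?_, ?_, ?_, ?_, ?_, ?_, ?_⟩
  · intro x
    apply matrix_inj f hf
    rw [Matrix.map_mul, Matrix.map_mul]
    exact h.hT x
  · intro x
    apply matrix_inj f hf
    rw [Matrix.map_mul, Matrix.map_mul]
    exact h.hT' x
  · apply hf
    rw [map_mul, map_mul, map_one]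
    exact h.hu
  · apply hf
    rw [map_mul, map_one]
    exact h.hci
  · apply matrix_inj f hf
    rw [Matrix.map_mul, map_al, map_be, smul_map0, one_map0]
    exact h.hc
  · apply matrix_inj f hf
    rw [Matrix.map_mul, smul_map0, one_map0]
    exact h.hz
  · apply matrix_inj f hf
    rw [zero_map0]
    exact h.P0
  · intro i hi
    apply matrix_inj f hf
    rw [Matrix.map_mul]
    exact h.idem i hi
  · intro i hi g
    apply matrix_inj f hf
    rw [Matrix.map_mul, Matrix.map_mul, map_ind]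
    exact h.comm i hi g
  · intro i hi
    apply matrix_inj f hf
    rw [Matrix.map_mul]
    exact h.step i hi
  · intro i hi
    apply hf
    rw [← trace_map0, map_natCast]
    exact h.tr i hi
  · apply matrix_inj f hf
    rw [sub_map0, one_map0, smul_map0, Matrix.map_mul, map_al, map_be]
    exact h.last

theorem BigData.toRing {K : Type} [Field K] {t n : ℕ} {θ : H →* Matrix (Fin t) (Fin t) K}
    {ρ : G →* Matrix (Fin n) (Fin n) K}
    {T : Matrix (Fin n) (Fin t) K} {T' : Matrix (Fin t) (Fin n) K} {c z : K} {r : ℕ}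
    {P : ℕ → Matrix ((G ⧸ H) × Fin t) ((G ⧸ H) × Fin t) K}
    (h : BigData H θ ρ T T' c z r P) {i₀ i₁ : Fin n} {j₀ j₁ : Fin t} (h1 : T i₀ j₀ ≠ 0)
    (h2 : T' j₁ i₁ ≠ 0) :
    BigRing H θ ρ T T' c c⁻¹ z (T i₀ j₀ * T' j₁ i₁)⁻¹ i₀ i₁ j₀ j₁ r (fun i => rg (P i)) P :=
  ⟨h.hT, h.hT', inv_mul_cancel₀ (mul_ne_zero h1 h2), mul_inv_cancel₀ h.c_ne, h.hc, h.hz,
    h.chain.1, fun i hi => (h.chain.2.1 i hi).idem, fun i hi => (h.chain.2.1 i hi).comm,
    fun i hi => (h.chain.2.2 i hi).1, fun i hi => trace_idem (h.chain.2.1 i hi).idem, h.last⟩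

theorem BigRing.toData {K : Type} [Field K] [CharZero K] {t n : ℕ}
    {θ : H →* Matrix (Fin t) (Fin t) K}
    {ρ : G →* Matrix (Fin n) (Fin n) K} {T : Matrix (Fin n) (Fin t) K}
    {T' : Matrix (Fin t) (Fin n) K} {c ci z u : K} {i₀ i₁ : Fin n} {j₀ j₁ : Fin t} {r : ℕ}
    {d : ℕ → ℕ} {P : ℕ → Matrix ((G ⧸ H) × Fin t) ((G ⧸ H) × Fin t) K}
    (h : BigRing H θ ρ T T' c ci z u i₀ i₁ j₀ j₁ r d P)
    (hd : ∀ i < r, d (i + 1) < d i + n) : BigData H θ ρ T T' c z r P := by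
  have hrg : ∀ i ≤ r, rg (P i) = d i := by
    intro i hi
    have h1 := h.tr i hi
    rw [trace_idem (h.idem i hi)] at h1
    exact_mod_cast h1
  have hc0 : c ≠ 0 := by
    intro h0
    have h1 := h.hci
    rw [h0, zero_mul] at h1
    exact zero_ne_one h1
  have hci : ci = c⁻¹ := by
    rw [eq_comm, inv_eq_iff_eq_inv, eq_comm]
    exact inv_eq_of_mul_eq_one_left h.hci
  refine ⟨h.hT, h.hT', ?_, ?_, hc0, h.hc, h.hz, ⟨h.P0, fun i hi => ⟨h.idem i hi, h.comm i hi⟩,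
    fun i hi => ⟨h.step i hi, ?_⟩⟩, ?_⟩
  · intro h0
    have h1 := h.hu
    rw [h0, Matrix.zero_apply, zero_mul, mul_zero] at h1
    exact zero_ne_one h1
  · intro h0
    have h1 := h.hu
    rw [h0, Matrix.zero_apply, mul_zero, mul_zero] at h1
    exact zero_ne_one h1
  · rw [hrg _ (by omega), hrg _ hi.le]
    exact hd i hi
  · rw [← hci]
    exact h.last

theorem big_descent {F : Type} [Field F] [NumberField F] (σ : F →+* ℂ) {t n : ℕ}
    (θ : H →* Matrix (Fin t) (Fin t) (𝓞 F)) (ρ : G →* Matrix (Fin n) (Fin n) (𝓞 F))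
    {T : Matrix (Fin n) (Fin t) ℂ} {T' : Matrix (Fin t) (Fin n) ℂ} {c z : ℂ} {r : ℕ}
    {P : ℕ → Matrix ((G ⧸ H) × Fin t) ((G ⧸ H) × Fin t) ℂ}
    (h : BigData H (mapRep (σ.comp (algebraMap (𝓞 F) F)) θ)
      (mapRep (σ.comp (algebraMap (𝓞 F) F)) ρ) T T' c z r P) :
    ∃ (E : Type) (_ : Field E) (_ : NumberField E) (ι : F →+* E)
      (T₁ : Matrix (Fin n) (Fin t) E) (T₁' : Matrix (Fin t) (Fin n) E) (c₁ z₁ : E)
      (P₁ : ℕ → Matrix ((G ⧸ H) × Fin t) ((G ⧸ H) × Fin t) E),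
      BigData H (mapRep (algebraMap (𝓞 E) E) (mapRep (RingOfIntegers.mapRingHom ι) θ))
        (mapRep (algebraMap (𝓞 E) E) (mapRep (RingOfIntegers.mapRingHom ι) ρ))
        T₁ T₁' c₁ z₁ r P₁ := by
  obtain ⟨i₀, j₀, h0⟩ : ∃ i j, T i j ≠ 0 := by
    by_contra hcon
    push Not at hcon
    exact h.T_ne (by ext i j; exact hcon i j)
  obtain ⟨j₁, i₁, h1⟩ : ∃ i j, T' i j ≠ 0 := by
    by_contra hcon
    push Not at hcon
    exact h.T'_ne (by ext i j; exact hcon i j)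
  have hB := h.toRing h0 h1
  set u := (T i₀ j₀ * T' j₁ i₁)⁻¹ with hu
  obtain ⟨E, hE, hNE, τ, R, hR, j, σR, ψ, hj, hjσ, hτ, hs⟩ := descent σ
    ((Set.range (fun p : Fin n × Fin t => T p.1 p.2) ∪
      Set.range (fun p : Fin t × Fin n => T' p.1 p.2)) ∪
      Set.range (fun p : Fin (r + 1) × ((G ⧸ H) × Fin t) × ((G ⧸ H) × Fin t) =>
        P p.1 p.2.1 p.2.2) ∪ {c, c⁻¹, z, u})
    ((((Set.finite_range _).union (Set.finite_range _)).union (Set.finite_range _)).union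
      (Set.toFinite _))
  choose TR hTR using fun (a : Fin n) (b : Fin t) =>
    hs (T a b) (Or.inl (Or.inl (Or.inl ⟨(a, b), rfl⟩)))
  choose TR' hTR' using fun (a : Fin t) (b : Fin n) =>
    hs (T' a b) (Or.inl (Or.inl (Or.inr ⟨(a, b), rfl⟩)))
  choose PR hPR using fun (i : ℕ) (a b : (G ⧸ H) × Fin t) =>
    hs (P (min i r) a b) (Or.inl (Or.inr ⟨(⟨min i r, by omega⟩, a, b), rfl⟩))
  obtain ⟨cR, hcR⟩ := hs c (Or.inr (Or.inl rfl))
  obtain ⟨ciR, hciR⟩ := hs c⁻¹ (Or.inr (Or.inr (Or.inl rfl)))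
  obtain ⟨zR, hzR⟩ := hs z (Or.inr (Or.inr (Or.inr (Or.inl rfl))))
  obtain ⟨uR, huR⟩ := hs u (Or.inr (Or.inr (Or.inr (Or.inr rfl))))
  have eT : Matrix.map (TR : Matrix (Fin n) (Fin t) R) j = T := by
    ext a b; exact hTR a b
  have eT' : Matrix.map (TR' : Matrix (Fin t) (Fin n) R) j = T' := by
    ext a b; exact hTR' a b
  have eP : ∀ i, Matrix.map (PR i : Matrix ((G ⧸ H) × Fin t) ((G ⧸ H) × Fin t) R) j =
      P (min i r) := by
    intro i
    ext a b; exact hPR i a b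
  -- the data over `R`
  have hR' : BigRing H (mapRep (σR.comp (algebraMap (𝓞 F) F)) θ)
      (mapRep (σR.comp (algebraMap (𝓞 F) F)) ρ) (TR : Matrix (Fin n) (Fin t) R)
      (TR' : Matrix (Fin t) (Fin n) R) cR ciR zR uR i₀ i₁ j₀ j₁ r (fun i => rg (P i))
      (fun i => (PR i : Matrix ((G ⧸ H) × Fin t) ((G ⧸ H) × Fin t) R)) := by
    apply BigRing.comap j hj
    have eθ : mapRep j (mapRep (σR.comp (algebraMap (𝓞 F) F)) θ) =
        mapRep (σ.comp (algebraMap (𝓞 F) F)) θ := by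
      rw [← hjσ]
      rfl
    have eρ : mapRep j (mapRep (σR.comp (algebraMap (𝓞 F) F)) ρ) =
        mapRep (σ.comp (algebraMap (𝓞 F) F)) ρ := by
      rw [← hjσ]
      rfl
    have emin : ∀ i ≤ r, min i r = i := fun i hi => min_eq_left hi
    rw [eθ, eρ, eT, eT', hcR, hciR, hzR, huR]
    refine ⟨hB.hT, hB.hT', hB.hu, hB.hci, hB.hc, hB.hz, ?_, ?_, ?_, ?_, ?_, ?_⟩
    · show Matrix.map _ j = 0
      rw [eP, emin 0 (Nat.zero_le r)]
      exact hB.P0
    · intro i hi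
      show Matrix.map _ j * Matrix.map _ j = Matrix.map _ j
      rw [eP, emin i hi]
      exact hB.idem i hi
    · intro i hi g
      show _ * Matrix.map _ j = Matrix.map _ j * _
      rw [eP, emin i hi]
      exact hB.comm i hi g
    · intro i hi
      show Matrix.map _ j * Matrix.map _ j = Matrix.map _ j
      rw [eP, eP, emin i hi.le, emin (i + 1) hi]
      exact hB.step i hi
    · intro i hi
      show Matrix.trace (Matrix.map _ j) = _
      rw [eP, emin i hi]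
      exact hB.tr i hi
    · show Matrix.map _ j = _
      rw [eP, emin r le_rfl]
      exact hB.last
  have hE' := hR'.map ψ
  refine ⟨E, hE, hNE, ψ.comp σR, Matrix.map (TR : Matrix (Fin n) (Fin t) R) ψ,
    Matrix.map (TR' : Matrix (Fin t) (Fin n) R) ψ, ψ cR, ψ zR,
    fun i => Matrix.map (PR i : Matrix ((G ⧸ H) × Fin t) ((G ⧸ H) × Fin t) R) ψ, ?_⟩
  exact hE'.toData (fun i hi => (h.chain.2.2 i hi).2)

end

theorem irredVia_mapRep' {G : Type} [Group G] {R S K : Type} [CommRing R] [CommRing S]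
    [CommRing K] {n : ℕ} (φ : S →+* K) (ι : R →+* S) (ρ : G →* Matrix (Fin n) (Fin n) R) :
    IrredVia φ (mapRep ι ρ) ↔ IrredVia (φ.comp ι) ρ := Iff.rfl

section main
variable {G : Type} [Group G] [Finite G] {F : Type} [Field F] [NumberField F]

/-- the largest constituent of an induced representation -/
theorem largest {n t : ℕ} (σ : F →+* ℂ) (H : Subgroup G)
    (ρ : G →* Matrix (Fin n) (Fin n) (𝓞 F)) (θ : H →* Matrix (Fin t) (Fin t) (𝓞 F))
    (hρ : IrredVia (σ.comp (algebraMap (𝓞 F) F)) ρ)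
    (hθ : IrredVia (σ.comp (algebraMap (𝓞 F) F)) θ) (T₀ : Matrix (Fin n) (Fin t) ℂ)
    (hT0 : T₀ ≠ 0)
    (hT₀ : ∀ h : H, (ρ h).map (σ.comp (algebraMap (𝓞 F) F)) * T₀ =
      T₀ * (θ h).map (σ.comp (algebraMap (𝓞 F) F)))
    (hmult : ∀ T : Matrix (Fin n) (Fin t) ℂ,
      (∀ h : H, (ρ h).map (σ.comp (algebraMap (𝓞 F) F)) * T =
        T * (θ h).map (σ.comp (algebraMap (𝓞 F) F))) → ∃ c : ℂ, T = c • T₀)
    (hmax : ∀ (d : ℕ) (τ : G →* Matrix (Fin d) (Fin d) ℂ), n ≤ d → Irr τ →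
      (∃ T : Matrix (Fin d) (Fin t) ℂ, T ≠ 0 ∧
        ∀ h : H, τ h * T = T * (θ h).map (σ.comp (algebraMap (𝓞 F) F))) →
      ∃ S : Matrix (Fin d) (Fin n) ℂ, S ≠ 0 ∧
        ∀ g, τ g * S = S * (ρ g).map (σ.comp (algebraMap (𝓞 F) F))) :
    n = H.index * t ∨ ∃ q : ℕ, q.Prime ∧ q ∣ H.index * t ∧
      ∀ (k : Type) [Field k] [IsAlgClosed k] [CharP k q] (φ : 𝓞 F →+* k), ¬ IrredVia φ ρ := by
  classical
  have := Fintype.ofFinite (G ⧸ H)
  have hn : 1 ≤ n := by
    by_contra hcon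
    apply hT0
    ext i j
    exact absurd (Fin.pos i) (by omega)
  obtain ⟨T₀', c, z, r, P, hdata⟩ := exists_data H hn
    (mapRep (σ.comp (algebraMap (𝓞 F) F)) θ) hθ (mapRep (σ.comp (algebraMap (𝓞 F) F)) ρ) hρ T₀
    hT0 hT₀ hmult hmax
  obtain ⟨E, hE, hNE, ι, T₁, T₁', c₁, z₁, P₁, hdE⟩ := big_descent σ θ ρ hdata
  have hidx : H.index = Fintype.card (G ⧸ H) := by
    rw [Subgroup.index_eq_card, Nat.card_eq_fintype_card]
  rw [hidx]
  by_cases hex : ∃ q : ℕ, q.Prime ∧ q ∣ Fintype.card (G ⧸ H) * t ∧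
      ∀ (k : Type) [Field k] [IsAlgClosed k] [CharP k q] (φ : 𝓞 F →+* k), ¬ IrredVia φ ρ
  · exact Or.inr hex
  left
  have hdvd : Fintype.card (G ⧸ H) * t ∣ n := by
    apply dvd_of_local (E := E)
    intro q hq hqN
    by_contra hcon
    apply hex
    refine ⟨q, hq, hqN, ?_⟩
    intro k hk1 hk2 hk3 φ hφ
    obtain ⟨φ', hφ'⟩ := extend_hom ι φ
    apply hcon
    obtain ⟨c', z', h1, h2⟩ := core H hn _ _ hdE φ' (by
      rw [irredVia_mapRep', hφ']
      exact hφ)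
    exact ⟨k, hk1, hk3, φ', c', z', h1, h2⟩
  have hle := hdata.rank_last
  exact le_antisymm (by omega) (Nat.le_of_dvd (by omega) hdvd)

end main

end Pool.Agent.H14.GI
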