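import Pool.Agent.H14.GI.Basic

/-!
MP_adb684_al: equivariant idempotents over the complex numbers.
-/

set_option autoImplicit false

open Matrix

namespace Pool.Agent.H14.GI

section field
variable {K : Type} [Field K] {Y : Type} [Fintype Y] [DecidableEq Y]

/-- the dimension of the image -/
noncomputable def rg (π : Matrix Y Y K) : ℕ := Module.finrank K (LinearMap.range π.mulVecLin)

theorem mulVec_ext {m : Type} {A B : Matrix m Y K} (h : ∀ u, A *ᵥ u = B *ᵥ u) : A = B := by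
  ext i j
  have h1 := congrFun (h (Pi.single j 1)) i
  simpa using h1

theorem trace_idem {π : Matrix Y Y K} (h : π * π = π) : Matrix.trace π = (rg π : K) := by
  have h1 : IsIdempotentElem π.mulVecLin := by
    show π.mulVecLin ∘ₗ π.mulVecLin = π.mulVecLin
    rw [← Matrix.mulVecLin_mul, h]
  have h2 := LinearMap.IsProj.trace (LinearMap.IsIdempotentElem.isProj_range _ h1)
  rw [rg, ← h2, ← Matrix.toLin'_apply', Matrix.trace_toLin'_eq]

theorem exists_factor {π : Matrix Y Y K} (h : π * π = π) :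
    ∃ (B : Matrix Y (Fin (rg π)) K) (L : Matrix (Fin (rg π)) Y K), B * L = π ∧ L * B = 1 := by
  let D := LinearMap.range π.mulVecLin
  let b : Module.Basis (Fin (rg π)) K D := Module.finBasis K D
  let B : Matrix Y (Fin (rg π)) K := fun y i => (b i : Y → K) y
  let L : Matrix (Fin (rg π)) Y K :=
    LinearMap.toMatrix' (b.equivFun.toLinearMap ∘ₗ π.mulVecLin.rangeRestrict)
  have hL : ∀ u, L *ᵥ u = b.equivFun ⟨π *ᵥ u, ⟨u, rfl⟩⟩ := by
    intro u
    have := LinearMap.toMatrix'_mulVec (b.equivFun.toLinearMap ∘ₗ π.mulVecLin.rangeRestrict) u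
    exact this
  have hB : ∀ c : Fin (rg π) → K, B *ᵥ c = ((∑ i, c i • b i : D) : Y → K) := by
    intro c
    funext y
    rw [Submodule.coe_sum, Finset.sum_apply]
    simp only [Matrix.mulVec, dotProduct, B, Submodule.coe_smul, Pi.smul_apply, smul_eq_mul]
    refine Finset.sum_congr rfl fun i _ => ?_
    ring
  refine ⟨B, L, ?_, ?_⟩
  · apply mulVec_ext
    intro u
    rw [← Matrix.mulVec_mulVec, hL, hB]
    have h1 := b.sum_equivFun ⟨π *ᵥ u, ⟨u, rfl⟩⟩
    rw [h1]
  · apply mulVec_ext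
    intro c
    rw [← Matrix.mulVec_mulVec, hL, Matrix.one_mulVec]
    have h1 : (⟨π *ᵥ (B *ᵥ c), ⟨B *ᵥ c, rfl⟩⟩ : D) = ∑ i, c i • b i := by
      apply Subtype.ext
      show π *ᵥ (B *ᵥ c) = _
      obtain ⟨u, hu⟩ := (∑ i, c i • b i : D).2
      have hu' : π *ᵥ u = ((∑ i, c i • b i : D) : Y → K) := hu
      rw [hB, ← hu', Matrix.mulVec_mulVec, h]
    rw [h1, ← b.equivFun_symm_apply]
    exact b.equivFun.apply_symm_apply c

end field

section maschke
variable {G : Type} [Group G] [Fintype G] {Y : Type} [Fintype Y] [DecidableEq Y]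

/-- equivariant idempotents -/
structure EI {K : Type} [Field K] (Q : G → Matrix Y Y K) (π : Matrix Y Y K) : Prop where
  idem : π * π = π
  comm : ∀ g, Q g * π = π * Q g

theorem exists_EI (Q : G →* Matrix Y Y ℂ) (D : Submodule ℂ (Y → ℂ))
    (hD : ∀ g, ∀ u ∈ D, Q g *ᵥ u ∈ D) :
    ∃ π, EI Q π ∧ (∀ u, π *ᵥ u ∈ D) ∧ ∀ u ∈ D, π *ᵥ u = u := by
  obtain ⟨p, hp⟩ := LinearMap.exists_leftInverse_of_injective D.subtype
    (LinearMap.ker_eq_bot.2 D.injective_subtype)
  let P₀ : Matrix Y Y ℂ := LinearMap.toMatrix' (D.subtype ∘ₗ p)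
  have hP₀ : ∀ u, P₀ *ᵥ u = (p u : Y → ℂ) := fun u => by
    have := LinearMap.toMatrix'_mulVec (D.subtype ∘ₗ p) u
    exact this
  have hP₀D : ∀ u ∈ D, P₀ *ᵥ u = u := by
    intro u hu
    rw [hP₀]
    have h1 := congrArg (fun f => ((f : D →ₗ[ℂ] D) ⟨u, hu⟩ : Y → ℂ)) hp
    exact h1
  have hG : (Fintype.card G : ℂ) ≠ 0 := by exact_mod_cast Fintype.card_ne_zero
  let π : Matrix Y Y ℂ := (Fintype.card G : ℂ)⁻¹ • ∑ g : G, Q g * P₀ * Q g⁻¹
  have h1 : ∀ u, π *ᵥ u ∈ D := by
    intro u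
    show ((Fintype.card G : ℂ)⁻¹ • ∑ g : G, Q g * P₀ * Q g⁻¹) *ᵥ u ∈ D
    rw [Matrix.smul_mulVec, Matrix.sum_mulVec]
    apply D.smul_mem
    apply D.sum_mem
    intro g _
    rw [← Matrix.mulVec_mulVec, ← Matrix.mulVec_mulVec]
    apply hD
    rw [hP₀]
    exact (p _).2
  have h2 : ∀ u ∈ D, π *ᵥ u = u := by
    intro u hu
    show ((Fintype.card G : ℂ)⁻¹ • ∑ g : G, Q g * P₀ * Q g⁻¹) *ᵥ u = u
    rw [Matrix.smul_mulVec, Matrix.sum_mulVec]
    have h3 : ∀ g : G, (Q g * P₀ * Q g⁻¹) *ᵥ u = u := by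
      intro g
      rw [← Matrix.mulVec_mulVec, ← Matrix.mulVec_mulVec, hP₀D _ (hD _ _ hu),
        Matrix.mulVec_mulVec, ← map_mul, mul_inv_cancel, map_one, Matrix.one_mulVec]
    rw [Finset.sum_congr rfl (fun g _ => h3 g), Finset.sum_const, Finset.card_univ,
      ← Nat.cast_smul_eq_nsmul ℂ, smul_smul, inv_mul_cancel₀ hG, one_smul]
  refine ⟨π, ⟨?_, ?_⟩, h1, h2⟩
  · apply mulVec_ext
    intro u
    rw [← Matrix.mulVec_mulVec, h2 _ (h1 u)]
  · intro h
    show Q h * ((Fintype.card G : ℂ)⁻¹ • ∑ g : G, Q g * P₀ * Q g⁻¹) =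
      ((Fintype.card G : ℂ)⁻¹ • ∑ g : G, Q g * P₀ * Q g⁻¹) * Q h
    rw [Matrix.mul_smul, Matrix.smul_mul, Finset.mul_sum, Finset.sum_mul]
    congr 1
    rw [← Equiv.sum_comp (Equiv.mulLeft h) (fun g => Q g * P₀ * Q g⁻¹ * Q h)]
    refine Finset.sum_congr rfl fun g _ => ?_
    show Q h * (Q g * P₀ * Q g⁻¹) = Q (h * g) * P₀ * Q (h * g)⁻¹ * Q h
    have e1 : Q (h * g)⁻¹ * Q h = Q g⁻¹ := by
      rw [← map_mul]
      congr 1
      group
    rw [Matrix.mul_assoc _ (Q (h * g)⁻¹) (Q h), e1, map_mul]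
    simp only [Matrix.mul_assoc]

/-- the image of the idempotent is irreducible -/
def IrrRange (Q : G → Matrix Y Y ℂ) (π : Matrix Y Y ℂ) : Prop :=
  ∀ D : Submodule ℂ (Y → ℂ), (∀ g, ∀ u ∈ D, Q g *ᵥ u ∈ D) → (∀ u ∈ D, π *ᵥ u = u) →
    D = ⊥ ∨ ∀ u, π *ᵥ u ∈ D

/-- chains of equivariant idempotents with small steps -/
def IsChain {K : Type} [Field K] (Q : G → Matrix Y Y K) (n r : ℕ) (P : ℕ → Matrix Y Y K) :
    Prop :=
  P 0 = 0 ∧ (∀ i ≤ r, EI Q (P i)) ∧ ∀ i < r, P (i + 1) * P i = P i ∧ rg (P (i + 1)) < rg (P i) + n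

theorem exists_chain (Q : G →* Matrix Y Y ℂ) (n : ℕ) {m : Type} (α : Matrix m Y ℂ)
    (hsmall : ∀ π, EI Q π → π ≠ 0 → IrrRange Q π → α * π = 0 → rg π < n) (N : ℕ) :
    ∀ π, rg π ≤ N → EI Q π → α * π = 0 → ∃ (r : ℕ) (P : ℕ → Matrix Y Y ℂ),
      IsChain Q n r P ∧ P r = π := by
  classical
  induction N with
  | zero =>
    intro π hN hπ _
    have h1 : rg π = 0 := by omega
    have h2 : π = 0 := by
      apply mulVec_ext
      intro u
      have h3 : LinearMap.range π.mulVecLin = ⊥ := Submodule.finrank_eq_zero.1 h1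
      have h4 : π.mulVecLin u ∈ LinearMap.range π.mulVecLin := ⟨u, rfl⟩
      rw [h3, Submodule.mem_bot] at h4
      rw [Matrix.zero_mulVec]
      exact h4
    refine ⟨0, fun _ => 0, ⟨rfl, ?_, fun i hi => absurd hi (Nat.not_lt_zero i)⟩, h2.symm⟩
    intro i _
    exact ⟨by simp, by simp⟩
  | succ N ih =>
    intro π hN hπ hα
    by_cases h0 : π = 0
    · refine ⟨0, fun _ => 0, ⟨rfl, ?_, fun i hi => absurd hi (Nat.not_lt_zero i)⟩, h0.symm⟩
      intro i _
      exact ⟨by simp, by simp⟩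
    -- a minimal one
    have hex : ∃ d, ∃ π', EI Q π' ∧ π' ≠ 0 ∧ π * π' = π' ∧ π' * π = π' ∧ rg π' = d :=
      ⟨_, π, hπ, h0, hπ.idem, hπ.idem, rfl⟩
    obtain ⟨π', h1, h2, h3, h4, h5⟩ := Nat.find_spec hex
    have hmin : ∀ π'', EI Q π'' → π'' ≠ 0 → π * π'' = π'' → π'' * π = π'' →
        rg π' ≤ rg π'' := by
      intro π'' g1 g2 g3 g4
      rw [h5]
      exact Nat.find_min' hex ⟨π'', g1, g2, g3, g4, rfl⟩
    have hirr : IrrRange Q π' := by
      intro D hD hDπ
      by_cases hDb : D = ⊥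
      · exact Or.inl hDb
      right
      obtain ⟨τ, hτ, hτ1, hτ2⟩ := exists_EI Q D hD
      -- `τ * π'`
      have e1 : π' * τ = τ := by
        apply mulVec_ext
        intro u
        rw [← Matrix.mulVec_mulVec, hDπ _ (hτ1 u)]
      have e2 : τ * π' * (τ * π') = τ * π' := by
        rw [Matrix.mul_assoc τ π', ← Matrix.mul_assoc π' τ, e1, ← Matrix.mul_assoc, hτ.idem]
      have e3 : EI Q (τ * π') := by
        refine ⟨e2, fun g => ?_⟩
        rw [← Matrix.mul_assoc, hτ.comm, Matrix.mul_assoc, h1.comm, Matrix.mul_assoc]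
      have e4 : τ * π' ≠ 0 := by
        intro h
        obtain ⟨u, hu, hu0⟩ := (Submodule.ne_bot_iff _).1 hDb
        apply hu0
        have h6 : (τ * π') *ᵥ u = u := by
          rw [← Matrix.mulVec_mulVec, hDπ u hu, hτ2 u hu]
        rw [← h6, h, Matrix.zero_mulVec]
      have e6 : π * τ = τ := by
        calc π * τ = π * (π' * τ) := by rw [e1]
          _ = τ := by rw [← Matrix.mul_assoc, h3, e1]
      have e5 := hmin (τ * π') e3 e4 (by rw [← Matrix.mul_assoc, e6]) (by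
        rw [Matrix.mul_assoc, h4])
      -- the image of `π'` is `D`
      have hle : LinearMap.range (τ * π').mulVecLin ≤ LinearMap.range π'.mulVecLin := by
        rintro _ ⟨u, rfl⟩
        refine ⟨(τ * π') *ᵥ u, ?_⟩
        show π' *ᵥ ((τ * π') *ᵥ u) = (τ * π') *ᵥ u
        rw [Matrix.mulVec_mulVec, ← Matrix.mul_assoc, e1]
      have heq := Submodule.eq_of_le_of_finrank_le hle e5
      intro u
      have h6 : π' *ᵥ u ∈ LinearMap.range π'.mulVecLin := ⟨u, rfl⟩
      rw [← heq] at h6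
      obtain ⟨u', hu'⟩ := h6
      have h7 : (τ * π') *ᵥ u' = π' *ᵥ u := hu'
      rw [← h7, ← Matrix.mulVec_mulVec]
      exact hτ1 _
    have hα' : α * π' = 0 := by
      rw [← h3, ← Matrix.mul_assoc, hα, Matrix.zero_mul]
    have hsm := hsmall π' h1 h2 hirr hα'
    -- the complement
    have hEI : EI Q (π - π') := by
      refine ⟨?_, fun g => ?_⟩
      · rw [Matrix.sub_mul, Matrix.mul_sub, Matrix.mul_sub, hπ.idem, h3, h4, h1.idem, sub_self,
          sub_zero]
      · rw [Matrix.mul_sub, Matrix.sub_mul, hπ.comm, h1.comm]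
    have hrk : rg π = rg (π - π') + rg π' := by
      have h6 : ((rg π : ℕ) : ℂ) = ((rg (π - π') + rg π' : ℕ) : ℂ) := by
        rw [Nat.cast_add, ← trace_idem hπ.idem, ← trace_idem hEI.idem, ← trace_idem h1.idem,
          Matrix.trace_sub, sub_add_cancel]
      exact_mod_cast h6
    have hpos : 0 < rg π' := by
      rw [Nat.pos_iff_ne_zero]
      intro h6
      apply h2
      apply mulVec_ext
      intro u
      have h7 : LinearMap.range π'.mulVecLin = ⊥ := Submodule.finrank_eq_zero.1 h6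
      have h8 : π'.mulVecLin u ∈ LinearMap.range π'.mulVecLin := ⟨u, rfl⟩
      rw [h7, Submodule.mem_bot] at h8
      rw [Matrix.zero_mulVec]
      exact h8
    obtain ⟨r, P, ⟨hP0, hPE, hPs⟩, hPr⟩ := ih (π - π') (by omega) hEI (by
      rw [Matrix.mul_sub, hα, hα', sub_self])
    refine ⟨r + 1, fun i => if i ≤ r then P i else π, ⟨?_, ?_, ?_⟩, ?_⟩
    · show (if 0 ≤ r then P 0 else π) = 0
      rw [if_pos (Nat.zero_le r), hP0]
    · intro i hi
      by_cases hir : i ≤ r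
      · show EI Q (if i ≤ r then P i else π)
        rw [if_pos hir]
        exact hPE i hir
      · show EI Q (if i ≤ r then P i else π)
        rw [if_neg hir]
        exact hπ
    · intro i hi
      show (if i + 1 ≤ r then P (i + 1) else π) * (if i ≤ r then P i else π) =
        (if i ≤ r then P i else π) ∧ rg (if i + 1 ≤ r then P (i + 1) else π) <
          rg (if i ≤ r then P i else π) + n
      rw [if_pos (show i ≤ r by omega)]
      by_cases hir : i + 1 ≤ r
      · rw [if_pos hir]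
        exact hPs i (by omega)
      · rw [if_neg hir]
        have : i = r := by omega
        subst this
        rw [hPr]
        refine ⟨?_, ?_⟩
        · rw [Matrix.mul_sub, hπ.idem, h3]
        · omega
    · show (if r + 1 ≤ r then P (r + 1) else π) = π
      rw [if_neg (by omega)]

end maschke

end Pool.Agent.H14.GI
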