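import Pool.Agent.H14.GI.Basic

/-!
MP_adb684_al: induced matrix representations.
-/

set_option autoImplicit false

open Matrix

namespace Pool.Agent.H14.GI

section
variable {G : Type} [Group G] (H : Subgroup G)

theorem coset_mem (x : G ⧸ H) (g : G) (h : (g : G ⧸ H) = x) : x.out⁻¹ * g ∈ H := by
  rw [← QuotientGroup.eq, QuotientGroup.out_eq', h]

variable {K : Type} [CommRing K] {t n : ℕ}
  (θ : H →* Matrix (Fin t) (Fin t) K) (ρ : G →* Matrix (Fin n) (Fin n) K)

open Classical in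
/-- the columns `g ⊗ e_j` of the induced module -/
noncomputable def emb (g : G) : Matrix ((G ⧸ H) × Fin t) (Fin t) K :=
  fun p j => if h : (g : G ⧸ H) = p.1 then θ ⟨p.1.out⁻¹ * g, coset_mem H p.1 g h⟩ p.2 j else 0

theorem emb_of {g : G} {p : (G ⧸ H) × Fin t} (h : (g : G ⧸ H) = p.1) (j : Fin t) :
    emb H θ g p j = θ ⟨p.1.out⁻¹ * g, coset_mem H p.1 g h⟩ p.2 j := dif_pos h

theorem emb_ne {g : G} {p : (G ⧸ H) × Fin t} (h : (g : G ⧸ H) ≠ p.1) (j : Fin t) :
    emb H θ g p j = 0 := dif_neg h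

theorem emb_mul (g : G) (h : H) : emb H θ (g * h) = emb H θ g * θ h := by
  ext p j
  have e : ((g * h : G) : G ⧸ H) = (g : G ⧸ H) := by
    rw [QuotientGroup.eq]
    have : (g * (h : G))⁻¹ * g = (h : G)⁻¹ := by group
    rw [this]
    exact H.inv_mem h.2
  by_cases hp : (g : G ⧸ H) = p.1
  · have hp' : ((g * h : G) : G ⧸ H) = p.1 := e.trans hp
    rw [emb_of H θ hp', Matrix.mul_apply]
    have e2 : (⟨p.1.out⁻¹ * (g * h), coset_mem H p.1 _ hp'⟩ : H) =
        ⟨p.1.out⁻¹ * g, coset_mem H p.1 _ hp⟩ * h := by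
      apply Subtype.ext
      simp [mul_assoc]
    rw [e2, map_mul, Matrix.mul_apply]
    refine Finset.sum_congr rfl fun l _ => ?_
    rw [emb_of H θ hp]
  · have hp' : ((g * h : G) : G ⧸ H) ≠ p.1 := fun h1 => hp (e.symm.trans h1)
    rw [emb_ne H θ hp', Matrix.mul_apply]
    symm
    apply Finset.sum_eq_zero
    intro l _
    rw [emb_ne H θ hp, zero_mul]

/-- the induced representation -/
noncomputable def ind (g : G) : Matrix ((G ⧸ H) × Fin t) ((G ⧸ H) × Fin t) K :=
  fun p q => emb H θ (g * q.1.out) p q.2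

variable [Fintype (G ⧸ H)]

theorem ind_mul_emb (g g' : G) : ind H θ g * emb H θ g' = emb H θ (g * g') := by
  classical
  ext p j
  rw [Matrix.mul_apply, Fintype.sum_prod_type, Finset.sum_eq_single (g' : G ⧸ H)]
  · have h1 : ∀ l, ind H θ g p ((g' : G ⧸ H), l) * emb H θ g' ((g' : G ⧸ H), l) j =
        emb H θ (g * ((g' : G ⧸ H)).out) p l *
          θ ⟨((g' : G ⧸ H)).out⁻¹ * g', coset_mem H _ g' rfl⟩ l j := by
      intro l
      rw [emb_of H θ (p := ((g' : G ⧸ H), l)) rfl]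
      rfl
    rw [Finset.sum_congr rfl (fun l _ => h1 l), ← Matrix.mul_apply, ← emb_mul]
    congr 1
    simp
  · intro y _ hy
    apply Finset.sum_eq_zero
    intro l _
    rw [emb_ne H θ (p := (y, l)) (Ne.symm hy), mul_zero]
  · intro h; exact absurd (Finset.mem_univ _) h

omit [Fintype (G ⧸ H)] in
theorem ind_one [DecidableEq (G ⧸ H)] : ind H θ 1 = 1 := by
  ext p q
  show emb H θ (1 * q.1.out) p q.2 = _
  rw [one_mul]
  by_cases h : q.1 = p.1
  · have h' : ((q.1.out : G) : G ⧸ H) = p.1 := by rw [QuotientGroup.out_eq', h]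
    rw [emb_of H θ h']
    have e : (⟨p.1.out⁻¹ * q.1.out, coset_mem H p.1 _ h'⟩ : H) = 1 := by
      apply Subtype.ext
      show p.1.out⁻¹ * q.1.out = 1
      rw [h, inv_mul_cancel]
    rw [e, map_one]
    by_cases h2 : p.2 = q.2
    · have : p = q := Prod.ext h.symm h2
      rw [this, Matrix.one_apply_eq, Matrix.one_apply_eq]
    · have : p ≠ q := fun h3 => h2 (congrArg Prod.snd h3)
      rw [Matrix.one_apply_ne this, Matrix.one_apply_ne h2]
  · have h' : ((q.1.out : G) : G ⧸ H) ≠ p.1 := by rw [QuotientGroup.out_eq']; exact h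
    rw [emb_ne H θ h']
    have : p ≠ q := fun h3 => h (congrArg Prod.fst h3).symm
    rw [Matrix.one_apply_ne this]

theorem ind_mul (g g' : G) : ind H θ (g * g') = ind H θ g * ind H θ g' := by
  ext p q
  have h := congrFun (congrFun (ind_mul_emb H θ g (g' * q.1.out)) p) q.2
  rw [← mul_assoc] at h
  exact h.symm

/-- the map from the induced module -/
noncomputable def al (T : Matrix (Fin n) (Fin t) K) : Matrix (Fin n) ((G ⧸ H) × Fin t) K :=
  fun a p => (ρ p.1.out * T) a p.2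

/-- the map to the induced module -/
noncomputable def be (T : Matrix (Fin t) (Fin n) K) : Matrix ((G ⧸ H) × Fin t) (Fin n) K :=
  fun p a => (T * ρ p.1.out⁻¹) p.2 a

theorem al_emb {T : Matrix (Fin n) (Fin t) K} (hT : ∀ h : H, ρ h * T = T * θ h) (g : G) :
    al H ρ T * emb H θ g = ρ g * T := by
  classical
  ext a j
  rw [Matrix.mul_apply, Fintype.sum_prod_type, Finset.sum_eq_single (g : G ⧸ H)]
  · have h1 : ∀ l, al H ρ T a ((g : G ⧸ H), l) * emb H θ g ((g : G ⧸ H), l) j =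
        (ρ ((g : G ⧸ H)).out * T) a l *
          θ ⟨((g : G ⧸ H)).out⁻¹ * g, coset_mem H _ g rfl⟩ l j := by
      intro l
      rw [emb_of H θ (p := ((g : G ⧸ H), l)) rfl]
      rfl
    rw [Finset.sum_congr rfl (fun l _ => h1 l), ← Matrix.mul_apply, Matrix.mul_assoc, ← hT,
      ← Matrix.mul_assoc, ← map_mul]
    simp
  · intro y _ hy
    apply Finset.sum_eq_zero
    intro l _
    rw [emb_ne H θ (p := (y, l)) (Ne.symm hy), mul_zero]
  · intro h; exact absurd (Finset.mem_univ _) h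

theorem al_ind {T : Matrix (Fin n) (Fin t) K} (hT : ∀ h : H, ρ h * T = T * θ h) (g : G) :
    al H ρ T * ind H θ g = ρ g * al H ρ T := by
  ext a q
  have h := congrFun (congrFun (al_emb H θ ρ hT (g * q.1.out)) a) q.2
  have h2 : (al H ρ T * ind H θ g) a q = (al H ρ T * emb H θ (g * q.1.out)) a q.2 := rfl
  rw [h2, h, map_mul, Matrix.mul_assoc]
  rfl

theorem ind_be {T : Matrix (Fin t) (Fin n) K} (hT : ∀ h : H, θ h * T = T * ρ h) (g : G) :
    ind H θ g * be H ρ T = be H ρ T * ρ g := by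
  classical
  ext p a
  have e0 : ((g * (g⁻¹ • p.1).out : G) : G ⧸ H) = p.1 := by
    have h1 : ((g * (g⁻¹ • p.1).out : G) : G ⧸ H) = g • (((g⁻¹ • p.1).out : G) : G ⧸ H) := rfl
    rw [h1, QuotientGroup.out_eq', smul_inv_smul]
  rw [Matrix.mul_apply, Fintype.sum_prod_type, Finset.sum_eq_single (g⁻¹ • p.1)]
  · have h1 : ∀ l, ind H θ g p (g⁻¹ • p.1, l) * be H ρ T (g⁻¹ • p.1, l) a =
        θ ⟨p.1.out⁻¹ * (g * (g⁻¹ • p.1).out), coset_mem H _ _ e0⟩ p.2 l *
          (T * ρ (g⁻¹ • p.1).out⁻¹) l a := by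
      intro l
      show emb H θ (g * (g⁻¹ • p.1).out) p l * _ = _
      rw [emb_of H θ e0]
      rfl
    rw [Finset.sum_congr rfl (fun l _ => h1 l), ← Matrix.mul_apply, ← Matrix.mul_assoc, hT,
      Matrix.mul_assoc, ← map_mul]
    have h2 : (be H ρ T * ρ g) p a = (T * ρ p.1.out⁻¹ * ρ g) p.2 a := rfl
    rw [h2, Matrix.mul_assoc, ← map_mul]
    refine congrArg (fun M => (T * ρ M) p.2 a) ?_
    show p.1.out⁻¹ * (g * (g⁻¹ • p.1).out) * (g⁻¹ • p.1).out⁻¹ = _
    group
  · intro y _ hy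
    apply Finset.sum_eq_zero
    intro l _
    have h1 : ind H θ g p (y, l) = 0 := by
      apply emb_ne
      intro h2
      apply hy
      have h3 : ((g * y.out : G) : G ⧸ H) = g • ((y.out : G) : G ⧸ H) := rfl
      rw [← h2]
      show y = g⁻¹ • ((g * y.out : G) : G ⧸ H)
      rw [h3, QuotientGroup.out_eq', inv_smul_smul]
    rw [h1, zero_mul]
  · intro h; exact absurd (Finset.mem_univ _) h

/-- the product is a sum of conjugates -/
theorem al_be (T : Matrix (Fin n) (Fin t) K) (T' : Matrix (Fin t) (Fin n) K) :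
    al H ρ T * be H ρ T' = ∑ x : G ⧸ H, ρ x.out * (T * T') * ρ x.out⁻¹ := by
  ext a b
  rw [Matrix.mul_apply, Fintype.sum_prod_type, Matrix.sum_apply]
  refine Finset.sum_congr rfl fun x _ => ?_
  have h1 : ρ x.out * (T * T') * ρ x.out⁻¹ = (ρ x.out * T) * (T' * ρ x.out⁻¹) := by
    simp only [Matrix.mul_assoc]
  rw [h1, Matrix.mul_apply]
  rfl

theorem trace_al_be (T : Matrix (Fin n) (Fin t) K) (T' : Matrix (Fin t) (Fin n) K) :
    Matrix.trace (al H ρ T * be H ρ T') = (Fintype.card (G ⧸ H) : K) * Matrix.trace (T' * T) := by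
  rw [al_be, Matrix.trace_sum]
  have h1 : ∀ x : G ⧸ H, Matrix.trace (ρ x.out * (T * T') * ρ x.out⁻¹) =
      Matrix.trace (T' * T) := by
    intro x
    rw [Matrix.trace_mul_comm, ← Matrix.mul_assoc, ← map_mul, inv_mul_cancel, map_one,
      Matrix.one_mul, Matrix.trace_mul_comm]
  rw [Finset.sum_congr rfl (fun x _ => h1 x), Finset.sum_const, nsmul_eq_mul, Finset.card_univ]

omit [Fintype (G ⧸ H)] in
/-- a matrix which kills all the columns `g ⊗ e_j` is zero -/
theorem eq_zero_of_emb {m : Type} [Fintype (G ⧸ H)] (M : Matrix m ((G ⧸ H) × Fin t) K)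
    (h : ∀ g, M * emb H θ g = 0) : M = 0 := by
  classical
  ext a q
  have h1 : (M * ind H θ 1) a q = (M * emb H θ (1 * q.1.out)) a q.2 := rfl
  rw [ind_one, Matrix.mul_one] at h1
  rw [h1, h]
  rfl

end

section map
variable {G : Type} [Group G] (H : Subgroup G) {K L : Type} [CommRing K] [CommRing L] {t n : ℕ}
  (f : K →+* L) (θ : H →* Matrix (Fin t) (Fin t) K) (ρ : G →* Matrix (Fin n) (Fin n) K)

theorem map_emb (g : G) : (emb H θ g).map f = emb H (mapRep f θ) g := by
  ext p j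
  rw [Matrix.map_apply]
  by_cases h : (g : G ⧸ H) = p.1
  · rw [emb_of H _ h, emb_of H _ h]
    rfl
  · rw [emb_ne H _ h, emb_ne H _ h, map_zero]

theorem map_ind (g : G) : (ind H θ g).map f = ind H (mapRep f θ) g := by
  ext p q
  have h := congrFun (congrFun (map_emb H f θ (g * q.1.out)) p) q.2
  exact h

theorem map_al (T : Matrix (Fin n) (Fin t) K) :
    (al H ρ T).map f = al H (mapRep f ρ) (T.map f) := by
  ext a p
  show f ((ρ p.1.out * T) a p.2) = ((ρ p.1.out).map f * T.map f) a p.2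
  rw [← Matrix.map_mul]
  rfl

theorem map_be (T : Matrix (Fin t) (Fin n) K) :
    (be H ρ T).map f = be H (mapRep f ρ) (T.map f) := by
  ext p a
  show f ((T * ρ p.1.out⁻¹) p.2 a) = (T.map f * (ρ p.1.out⁻¹).map f) p.2 a
  rw [← Matrix.map_mul]
  rfl

end map

end Pool.Agent.H14.GI
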