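import Pool.Agent.H14.GI.Big.Ind
import Pool.Agent.H14.GI.Big.Idem

/-!
MP_adb684_al: the other constituents of the induced representation are small.
-/

set_option autoImplicit false

open Matrix

namespace Pool.Agent.H14.GI

/-- the induced representation as a homomorphism -/
noncomputable def indHom {G : Type} [Group G] (H : Subgroup G) [Fintype (G ⧸ H)]
    [DecidableEq (G ⧸ H)] {K : Type} [CommRing K] {t : ℕ} (θ : H →* Matrix (Fin t) (Fin t) K) :
    G →* Matrix ((G ⧸ H) × Fin t) ((G ⧸ H) × Fin t) K where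
  toFun := ind H θ
  map_one' := ind_one H θ
  map_mul' := ind_mul H θ

/-- a nonzero intertwiner between irreducible representations is invertible -/
theorem inv_intertwiner {G : Type} [Group G] {n d : ℕ} {ρ : G →* Matrix (Fin n) (Fin n) ℂ}
    {τ : G →* Matrix (Fin d) (Fin d) ℂ} (hρ : Irr ρ) (hτ : Irr τ) (S : Matrix (Fin d) (Fin n) ℂ)
    (hS0 : S ≠ 0) (hS : ∀ g, τ g * S = S * ρ g) :
    ∃ S' : Matrix (Fin n) (Fin d) ℂ, S' * S = 1 ∧ S * S' = 1 ∧ ∀ g, S' * τ g = ρ g * S' := by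
  have hker : LinearMap.ker S.mulVecLin = ⊥ := by
    rcases hρ (LinearMap.ker S.mulVecLin) (by
      intro g u hu
      rw [LinearMap.mem_ker, Matrix.mulVecLin_apply] at hu ⊢
      rw [Matrix.mulVec_mulVec, ← hS, ← Matrix.mulVec_mulVec, hu, Matrix.mulVec_zero]) with h | h
    · exact h
    · exfalso
      apply hS0
      apply mulVec_ext
      intro u
      have h1 : u ∈ LinearMap.ker S.mulVecLin := by rw [h]; trivial
      rw [Matrix.zero_mulVec]
      exact h1
  have hran : LinearMap.range S.mulVecLin = ⊤ := by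
    rcases hτ (LinearMap.range S.mulVecLin) (by
      rintro g _ ⟨u, rfl⟩
      refine ⟨ρ g *ᵥ u, ?_⟩
      rw [Matrix.mulVecLin_apply, Matrix.mulVecLin_apply, Matrix.mulVec_mulVec,
        Matrix.mulVec_mulVec, hS]) with h | h
    · exfalso
      apply hS0
      apply mulVec_ext
      intro u
      have h1 : S.mulVecLin u ∈ LinearMap.range S.mulVecLin := ⟨u, rfl⟩
      rw [h, Submodule.mem_bot] at h1
      rw [Matrix.zero_mulVec]
      exact h1
    · exact h
  let e : (Fin n → ℂ) ≃ₗ[ℂ] (Fin d → ℂ) := LinearEquiv.ofBijective S.mulVecLin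
    ⟨LinearMap.ker_eq_bot.1 hker, LinearMap.range_eq_top.1 hran⟩
  have he : ∀ u, e u = S *ᵥ u := fun u => rfl
  let S' : Matrix (Fin n) (Fin d) ℂ := LinearMap.toMatrix' e.symm.toLinearMap
  have hS' : ∀ u, S' *ᵥ u = e.symm u := fun u =>
    LinearMap.toMatrix'_mulVec e.symm.toLinearMap u
  have h1 : S' * S = 1 := by
    apply mulVec_ext
    intro u
    rw [← Matrix.mulVec_mulVec, hS', ← he, e.symm_apply_apply, Matrix.one_mulVec]
  have h2 : S * S' = 1 := by
    apply mulVec_ext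
    intro u
    rw [← Matrix.mulVec_mulVec, hS', ← he, e.apply_symm_apply, Matrix.one_mulVec]
  refine ⟨S', h1, h2, fun g => ?_⟩
  calc S' * τ g = S' * (τ g * S) * S' := by
        rw [Matrix.mul_assoc, Matrix.mul_assoc, h2, Matrix.mul_one]
    _ = ρ g * S' := by
        rw [hS, ← Matrix.mul_assoc, h1, Matrix.one_mul]

variable {G : Type} [Group G] (H : Subgroup G) [Fintype (G ⧸ H)] {t n : ℕ}

theorem small_of_max (hn : 1 ≤ n) (θ : H →* Matrix (Fin t) (Fin t) ℂ)
    (ρ : G →* Matrix (Fin n) (Fin n) ℂ) (hρ : Irr ρ) (T₀ : Matrix (Fin n) (Fin t) ℂ)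
    (hT₀ : ∀ h : H, ρ h * T₀ = T₀ * θ h)
    (hmult : ∀ T : Matrix (Fin n) (Fin t) ℂ, (∀ h : H, ρ h * T = T * θ h) → ∃ c : ℂ, T = c • T₀)
    (hmax : ∀ (d : ℕ) (τ : G →* Matrix (Fin d) (Fin d) ℂ), n ≤ d → Irr τ →
      (∃ T : Matrix (Fin d) (Fin t) ℂ, T ≠ 0 ∧ ∀ h : H, τ h * T = T * θ h) →
      ∃ S : Matrix (Fin d) (Fin n) ℂ, S ≠ 0 ∧ ∀ g, τ g * S = S * ρ g)
    [DecidableEq (G ⧸ H)] (π : Matrix ((G ⧸ H) × Fin t) ((G ⧸ H) × Fin t) ℂ)
    (hπ : EI (indHom H θ) π) (h0 : π ≠ 0) (hirr : IrrRange (indHom H θ) π)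
    (hα : al H ρ T₀ * π = 0) : rg π < n := by
  by_contra hcon
  push Not at hcon
  obtain ⟨d, hd, B, L, hBL, hLB⟩ : ∃ d, d = rg π ∧
      ∃ (B : Matrix ((G ⧸ H) × Fin t) (Fin d) ℂ) (L : Matrix (Fin d) ((G ⧸ H) × Fin t) ℂ),
        B * L = π ∧ L * B = 1 := ⟨rg π, rfl, exists_factor hπ.idem⟩
  rw [← hd] at hcon
  have hπB : π * B = B := by rw [← hBL, Matrix.mul_assoc, hLB, Matrix.mul_one]
  have hLπ : L * π = L := by rw [← hBL, ← Matrix.mul_assoc, hLB, Matrix.one_mul]
  let Q := indHom H θ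
  -- the representation on the image
  let τ : G →* Matrix (Fin d) (Fin d) ℂ :=
    { toFun := fun g => L * Q g * B
      map_one' := by rw [map_one, Matrix.mul_one, hLB]
      map_mul' := by
        intro g g'
        have h1 : L * Q g * B * (L * Q g' * B) = L * (Q g * (B * L)) * Q g' * B := by
          simp only [Matrix.mul_assoc]
        rw [h1, hBL, hπ.comm, ← Matrix.mul_assoc L, hLπ, map_mul]
        simp only [Matrix.mul_assoc]
        rfl }
  have hτ : ∀ g, τ g = L * Q g * B := fun g => rfl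
  have hBτ : ∀ g, Q g * B = B * τ g := by
    intro g
    rw [hτ, Matrix.mul_assoc L, ← Matrix.mul_assoc B L, hBL, ← Matrix.mul_assoc π, ← hπ.comm,
      Matrix.mul_assoc, hπB]
  have hLτ : ∀ g, L * Q g = τ g * L := by
    intro g
    rw [hτ, Matrix.mul_assoc, hBL, Matrix.mul_assoc, hπ.comm, ← Matrix.mul_assoc, hLπ]
  have hτirr : Irr τ := by
    intro U hU
    rcases hirr (U.map B.mulVecLin) (by
      rintro g _ ⟨u, hu, rfl⟩
      refine ⟨τ g *ᵥ u, hU g u hu, ?_⟩
      rw [Matrix.mulVecLin_apply, Matrix.mulVecLin_apply, Matrix.mulVec_mulVec,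
        Matrix.mulVec_mulVec, ← hBτ]) (by
      rintro _ ⟨u, hu, rfl⟩
      rw [Matrix.mulVecLin_apply, Matrix.mulVec_mulVec, hπB]) with h | h
    · left
      rw [eq_bot_iff]
      intro u hu
      have h1 : B.mulVecLin u ∈ U.map B.mulVecLin := ⟨u, hu, rfl⟩
      rw [h, Submodule.mem_bot, Matrix.mulVecLin_apply] at h1
      rw [Submodule.mem_bot]
      calc u = L *ᵥ (B *ᵥ u) := by rw [Matrix.mulVec_mulVec, hLB, Matrix.one_mulVec]
        _ = 0 := by rw [h1, Matrix.mulVec_zero]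
    · right
      rw [eq_top_iff]
      intro u _
      obtain ⟨u', hu', h1⟩ := h (B *ᵥ u)
      have h2 : B *ᵥ u' = π *ᵥ (B *ᵥ u) := h1
      have h3 : u' = u := by
        calc u' = L *ᵥ (B *ᵥ u') := by rw [Matrix.mulVec_mulVec, hLB, Matrix.one_mulVec]
          _ = u := by
            rw [h2, Matrix.mulVec_mulVec, Matrix.mulVec_mulVec, hLπ, hLB, Matrix.one_mulVec]
      rw [← h3]
      exact hu'
  -- the restriction to the first block
  have hLemb : ∀ g, L * emb H θ g = τ g * (L * emb H θ 1) := by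
    intro g
    have h1 : emb H θ g = Q g * emb H θ 1 := by
      have := ind_mul_emb H θ g 1
      rw [mul_one] at this
      exact this.symm
    rw [h1, ← Matrix.mul_assoc, hLτ, Matrix.mul_assoc]
  have hT0 : L * emb H θ 1 ≠ 0 := by
    intro h
    apply h0
    have h1 : L = 0 := eq_zero_of_emb H θ L (fun g => by rw [hLemb, h, Matrix.mul_zero])
    rw [← hBL, h1, Matrix.mul_zero]
  have hTint : ∀ h : H, τ h * (L * emb H θ 1) = (L * emb H θ 1) * θ h := by
    intro h
    rw [← hLemb, Matrix.mul_assoc, ← emb_mul, one_mul]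
  obtain ⟨S, hS0, hS⟩ := hmax d τ hcon hτirr ⟨_, hT0, hTint⟩
  obtain ⟨S', h1, h2, h3⟩ := inv_intertwiner hρ hτirr S hS0 hS
  obtain ⟨c, hc⟩ := hmult (S' * (L * emb H θ 1)) (by
    intro h
    rw [← Matrix.mul_assoc, ← h3, Matrix.mul_assoc, hTint, ← Matrix.mul_assoc])
  -- `S' * L = c • α`
  have h4 : S' * L - c • al H ρ T₀ = 0 := by
    apply eq_zero_of_emb H θ
    intro g
    rw [Matrix.sub_mul, Matrix.smul_mul, al_emb H θ ρ hT₀, Matrix.mul_assoc, hLemb,
      ← Matrix.mul_assoc, h3, Matrix.mul_assoc, hc, Matrix.mul_smul, sub_self]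
  have h5 : S' = 0 := by
    calc S' = S' * L * B := by rw [Matrix.mul_assoc, hLB, Matrix.mul_one]
      _ = c • (al H ρ T₀ * π * B) := by
        rw [sub_eq_zero.1 h4, Matrix.smul_mul, Matrix.mul_assoc, hπB]
      _ = 0 := by rw [hα, Matrix.zero_mul, smul_zero]
  rw [h5, Matrix.zero_mul] at h1
  have h6 := congrFun (congrFun h1 ⟨0, hn⟩) ⟨0, hn⟩
  rw [Matrix.one_apply_eq] at h6
  exact zero_ne_one h6

end Pool.Agent.H14.GI
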